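import Pool.Agent.V11203.LD.Proc

open MeasureTheory Finset Filter Topology

namespace Pool.Agent.V11203.LD

section Claim

variable {n : ℕ → ℕ} {q : ℝ}

lemma mono_vol {A B : Set ℝ} {z w y y' : ℝ} {m : ENNReal} (h : m ≤ volume (A ∩ Set.Ico z w))
    (hAB : A ⊆ B) (h1 : y ≤ z) (h2 : w ≤ y') : m ≤ volume (B ∩ Set.Ico y y') :=
  h.trans (measure_mono (fun _ hx => ⟨hAB hx.1, ⟨h1.trans hx.2.1, hx.2.2.trans_le h2⟩⟩))

theorem claimB (hq : 1 < q) (hpos : ∀ k, 0 < n k)
    (hr : ∀ k, q * (n k : ℝ) ≤ (n (k + 1) : ℝ)) (ξ δ W : ℝ) (hδ : 0 < δ) (hW : 0 ≤ W) :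
    ∃ K : ℝ, 1 ≤ K ∧ ∃ p : ℝ, 0 < p ∧ ∀ (k : ℕ) (x₀ : ℝ), K * (n k : ℝ) ≤ n (k + 1) →
      |S n (k + 1) x₀ - ξ| ≤ W →
      ENNReal.ofReal (p / n k) ≤ volume (H n ξ δ (k + 1) ∩ Set.Ico x₀ (x₀ + 2 / n k)) := by
  have hkap := kap_gt hq
  obtain ⟨T, hT1, hT⟩ := osc q hq (W + kap q + 1) (by linarith)
  obtain ⟨C, c, hC1, hc0, hc1, hosc1⟩ := osc1 q hq T hT1
  set η := c / (2 * kap q) with hη
  have hη0 : 0 < η := by positivity
  have hη1 : η ≤ 1 := by
    rw [hη, div_le_one (by positivity)]; linarith
  have hκη : kap q * η = c / 2 := by rw [hη]; field_simp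
  set K := (C + 2) / η with hK
  have hK1 : 1 ≤ K := by
    rw [hK, le_div_iff₀ hη0]; linarith
  have hK0 : 0 < K := by linarith
  set ρ := min (δ / kap q) 1 with hρ
  have hρ0 : 0 < ρ := lt_min (by positivity) one_pos
  have hρ1 : ρ ≤ 1 := min_le_right _ _
  have hρδ : kap q * ρ ≤ δ := by
    have : ρ ≤ δ / kap q := min_le_left _ _
    rw [le_div_iff₀ (by linarith)] at this
    linarith
  have npos : ∀ k, (0 : ℝ) < n k := fun k => by exact_mod_cast hpos k
  have hKT : 0 < K ^ T := by positivity
  refine ⟨K, hK1, ?_⟩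
  have main : ∀ i : ℕ, ∀ V, V ≤ W → V < i * (c / 2) → ∃ p : ℝ, 0 < p ∧ ∀ (k : ℕ) (x₀ : ℝ),
      K * (n k : ℝ) ≤ n (k + 1) → |S n (k + 1) x₀ - ξ| ≤ V →
      ENNReal.ofReal (p / n k) ≤ volume (H n ξ δ (k + 1) ∩ Set.Ico x₀ (x₀ + 2 / n k)) := by
    intro i
    induction i with
    | zero =>
      intro V _ hV
      refine ⟨1, one_pos, fun k x₀ _ h => ?_⟩
      have := abs_nonneg (S n (k + 1) x₀ - ξ)
      simp only [Nat.cast_zero, zero_mul] at hV
      linarith
    | succ i ih =>
      intro V hVW hV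
      obtain ⟨p', hp', ih'⟩ := ih (V - c / 2) (by linarith) (by push_cast at hV; linarith)
      set p₁ := min p' ρ / K ^ T with hp₁
      have hp₁0 : 0 < p₁ := div_pos (lt_min hp' hρ0) hKT
      refine ⟨η * p₁ / (2 * (C + 2)), by positivity, fun k x₀ hbig hx₀ => ?_⟩
      have hNk := npos k
      have hN1 := npos (k + 1)
      set Nk : ℝ := (n k : ℝ) with hNkdef
      set N1 : ℝ := (n (k + 1) : ℝ) with hN1def
      set ℓ := (C + 2) / N1 with hℓ
      have hℓ0 : 0 < ℓ := by positivity
      -- comparison lemma for constants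
      have cmp : ∀ (r : ℝ) (m : ℕ), min p' ρ ≤ r → (n m : ℝ) ≤ K ^ T * N1 →
          p₁ / N1 ≤ r / n m := by
        intro r m hr1 hm
        have hm0 := npos m
        rw [hp₁, div_div, div_le_div_iff₀ (by positivity) hm0]
        exact mul_le_mul hr1 hm hm0.le ((lt_min hp' hρ0).le.trans hr1)
      have cell : ∀ y, x₀ ≤ y → y + ℓ ≤ x₀ + η / Nk →
          ENNReal.ofReal (p₁ / N1) ≤ volume (H n ξ δ (k + 1) ∩ Set.Ico y (y + ℓ)) := by
        intro y hy1 hy2
        have hℓe : ℓ = C / N1 + 2 / N1 := by rw [hℓ]; ring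
        have h2N : 0 < 2 / N1 := by positivity
        have near : ∀ x ∈ Set.Icc y (y + C / N1), |S n (k + 1) x - S n (k + 1) x₀| ≤ c / 2 := by
          intro x hx
          have h1 := S_lip hq hr k x x₀
          have h2 : |x - x₀| ≤ η / Nk := by
            rw [abs_of_nonneg (by linarith [hx.1])]
            linarith [hx.2]
          calc _ ≤ kap q * Nk * |x - x₀| := h1
            _ ≤ kap q * Nk * (η / Nk) := mul_le_mul_of_nonneg_left h2 (by positivity)
            _ = kap q * η := by field_simp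
            _ = c / 2 := hκη
        by_cases hex : ∃ t, t < T ∧ K * (n (k + 1 + t) : ℝ) ≤ n (k + 1 + t + 1)
        · classical
          obtain ⟨t, ⟨htT, htbig⟩, hmin⟩ : ∃ t, (t < T ∧ K * (n (k + 1 + t) : ℝ) ≤ n (k + 1 + t + 1)) ∧
              ∀ i < t, ¬ (i < T ∧ K * (n (k + 1 + i) : ℝ) ≤ n (k + 1 + i + 1)) :=
            ⟨Nat.find hex, Nat.find_spec hex, fun i hi => Nat.find_min hex hi⟩
          have hg := growth hK1 (n := n) (k + 1) t (fun i hi hb => hmin i hi ⟨by omega, hb⟩)
          have hg' : (n (k + 1 + t) : ℝ) ≤ K ^ T * N1 :=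
            hg.trans (mul_le_mul_of_nonneg_right (pow_le_pow_right₀ hK1 htT.le) hN1.le)
          have hge : N1 ≤ n (k + 1 + t) := n_mono hq hr (by omega)
          have hnt := npos (k + 1 + t)
          obtain ⟨o1, o2⟩ := hosc1 (tail n k) (tail_lac hpos hr k) (C / N1) y (by
            simp only [tail, add_zero]
            rw [← hN1def]
            apply le_of_eq; field_simp) (t + 1) (by omega) (by omega)
          have alt := step_alt (g := fun x => S n (k + 1 + (t + 1)) x - ξ)
            (Fx := F (tail n k) (t + 1)) (a := y) (b := y + C / N1) (u := S n (k + 1) x₀ - ξ)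
            (V := V) (c := c) ((S_cont n _).sub continuous_const) hc0 hx₀ o1 o2 (by
              intro x hx
              have h1 := near x hx
              have h2 := S_tail n k (t + 1) x
              rw [h2]
              have e : S n (k + 1) x + F (tail n k) (t + 1) x - ξ
                  - (S n (k + 1) x₀ - ξ + F (tail n k) (t + 1) x) = S n (k + 1) x - S n (k + 1) x₀ := by
                ring
              rw [e]; exact h1)
          rcases alt with ⟨z, hz, hgz⟩ | ⟨z, hz, hgz⟩
          · have hz' : S n (k + 1 + t + 1) z = ξ := by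
              have : S n (k + 1 + (t + 1)) z - ξ = 0 := hgz
              rw [show k + 1 + t + 1 = k + 1 + (t + 1) by ring]; linarith
            have hsub := hit_near hq hpos hr hρ0 hρδ (k + 1 + t) z hz'
            have hsub' := hsub.trans (H_anti n ξ δ (show k + 1 ≤ k + 1 + t + 1 by omega))
            have hlen : ρ / (n (k + 1 + t) : ℝ) ≤ 2 / N1 := by
              apply div_le_div₀ (by norm_num) (by linarith) hN1 hge
            have hv := vol_sub hsub' hz.1 (y' := y + ℓ) (by linarith [hz.2])
            refine le_trans (ENNReal.ofReal_le_ofReal ?_) hv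
            rw [add_sub_cancel_left]
            exact cmp ρ _ (min_le_right _ _) hg'
          · have hv := ih' (k + 1 + t) z htbig (by
              rw [show k + 1 + t + 1 = k + 1 + (t + 1) by ring]; exact hgz)
            have hlen : 2 / (n (k + 1 + t) : ℝ) ≤ 2 / N1 :=
              div_le_div_of_nonneg_left (by norm_num) hN1 hge
            have hv' := mono_vol hv (H_anti n ξ δ (show k + 1 ≤ k + 1 + t + 1 by omega)) hz.1
              (y' := y + ℓ) (by linarith [hz.2])
            exact le_trans (ENNReal.ofReal_le_ofReal (cmp p' _ (min_le_left _ _) hg')) hv'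
        · push Not at hex
          have hg := growth hK1 (n := n) (k + 1) T (fun i hi hb => absurd hb (not_le.mpr (hex i hi)))
          have hg' : (n (k + T) : ℝ) ≤ K ^ T * N1 :=
            (n_mono hq hr (show k + T ≤ k + 1 + T by omega)).trans hg
          have hge : N1 ≤ n (k + T) := n_mono hq hr (by omega)
          have hnt := npos (k + T)
          have h1C : 1 / N1 ≤ C / N1 := div_le_div_of_nonneg_right hC1 hN1.le
          obtain ⟨o1, o2⟩ := hT (tail n k) (tail_lac hpos hr k) (1 / N1) y (by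
            simp only [tail, add_zero]
            rw [← hN1def]
            apply le_of_eq; field_simp)
          obtain ⟨z, hz, hgz⟩ := step_hit (g := fun x => S n (k + 1 + T) x - ξ)
            (Fx := F (tail n k) T) (a := y) (b := y + 1 / N1) (V := W + c / 2)
            (R := W + kap q + 1) ((S_cont n _).sub continuous_const) o1 o2 (by linarith) (by
              intro x hx
              have h1 := near x ⟨hx.1, by linarith [hx.2]⟩
              have h2 := S_tail n k T x
              rw [h2]
              have e : S n (k + 1) x + F (tail n k) T x - ξ - F (tail n k) T x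
                  = (S n (k + 1) x - S n (k + 1) x₀) + (S n (k + 1) x₀ - ξ) := by ring
              rw [e]
              refine (abs_add_le _ _).trans ?_
              linarith)
          have hz' : S n (k + T + 1) z = ξ := by
            have : S n (k + 1 + T) z - ξ = 0 := hgz
            rw [show k + T + 1 = k + 1 + T by ring]; linarith
          have hsub := hit_near hq hpos hr hρ0 hρδ (k + T) z hz'
          have hsub' := hsub.trans (H_anti n ξ δ (show k + 1 ≤ k + T + 1 by omega))
          have hlen : ρ / (n (k + T) : ℝ) ≤ 2 / N1 := by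
            apply div_le_div₀ (by norm_num) (by linarith) hN1 hge
          have hv := vol_sub hsub' hz.1 (y' := y + ℓ) (by linarith [hz.2])
          refine le_trans (ENNReal.ofReal_le_ofReal ?_) hv
          rw [add_sub_cancel_left]
          exact cmp ρ _ (min_le_right _ _) hg'
      -- counting cells
      set Z := η * N1 / ((C + 2) * Nk) with hZ
      have hZ1 : 1 ≤ Z := by
        rw [hZ, le_div_iff₀ (by positivity), one_mul]
        have h1 : (C + 2) / η * Nk ≤ N1 := hbig
        have h2 : (C + 2) * Nk = η * ((C + 2) / η * Nk) := by field_simp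
        rw [h2]
        exact mul_le_mul_of_nonneg_left h1 hη0.le
      set M := ⌊Z⌋₊ with hM
      have hMZ : (M : ℝ) ≤ Z := Nat.floor_le (by linarith)
      have hM1 : 1 ≤ M := Nat.le_floor (by exact_mod_cast hZ1)
      have hM1r : (1 : ℝ) ≤ M := by exact_mod_cast hM1
      have hZM : Z < M + 1 := Nat.lt_floor_add_one Z
      have hZM2 : Z / 2 ≤ M := by linarith
      have hZℓ : Z * ℓ = η / Nk := by
        rw [hZ, hℓ]; field_simp
      have hMℓ : (M : ℝ) * ℓ ≤ η / Nk := by
        rw [← hZℓ]; exact mul_le_mul_of_nonneg_right hMZ hℓ0.le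
      have hcells := cells (H_open n ξ δ (k + 1)).measurableSet x₀ ℓ hℓ0.le
        (ENNReal.ofReal (p₁ / N1)) M (by
          intro i hi
          apply cell
          · have : 0 ≤ (i : ℝ) * ℓ := by positivity
            linarith
          · have hi1 : (i : ℝ) + 1 ≤ M := by exact_mod_cast hi
            have : ((i : ℝ) + 1) * ℓ ≤ M * ℓ := mul_le_mul_of_nonneg_right hi1 hℓ0.le
            linarith)
      have hfin : x₀ + M * ℓ ≤ x₀ + 2 / Nk := by
        have : η / Nk ≤ 2 / Nk := div_le_div_of_nonneg_right (by linarith) hNk.le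
        linarith
      refine le_trans ?_ (mono_vol hcells (Set.Subset.refl _) le_rfl hfin)
      have e1 : (M : ENNReal) * ENNReal.ofReal (p₁ / N1) = ENNReal.ofReal (M * (p₁ / N1)) := by
        rw [ENNReal.ofReal_mul (by positivity), ENNReal.ofReal_natCast]
      rw [e1]
      apply ENNReal.ofReal_le_ofReal
      have e2 : η * p₁ / (2 * (C + 2)) / Nk = Z / 2 * (p₁ / N1) := by
        rw [hZ]; field_simp
      rw [e2]
      exact mul_le_mul_of_nonneg_right hZM2 (by positivity)
  obtain ⟨i, hi⟩ := exists_nat_gt (W / (c / 2))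
  rw [div_lt_iff₀ (by positivity)] at hi
  exact main i W le_rfl hi

theorem claim1 (hq : 1 < q) (hpos : ∀ k, 0 < n k)
    (hr : ∀ k, q * (n k : ℝ) ≤ (n (k + 1) : ℝ)) (ξ δ : ℝ) (hδ : 0 < δ) :
    ∃ p : ℝ, 0 < p ∧ ∀ (k : ℕ) (x₀ : ℝ), |S n (k + 1) x₀ - ξ| ≤ 1 →
      ENNReal.ofReal (p / n k) ≤ volume (H n ξ δ (k + 1) ∩ Set.Ico x₀ (x₀ + 2 / n k)) := by
  have hkap := kap_gt hq
  obtain ⟨T, hT1, hT⟩ := osc q hq (kap q + 2) (by linarith)
  obtain ⟨K, hK1, p', hp', hB⟩ := claimB hq hpos hr ξ δ (1 + T) hδ (by positivity)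
  have hK0 : 0 < K := by linarith
  set ρ := min (δ / kap q) 1 with hρ
  have hρ0 : 0 < ρ := lt_min (by positivity) one_pos
  have hρ1 : ρ ≤ 1 := min_le_right _ _
  have hρδ : kap q * ρ ≤ δ := by
    have : ρ ≤ δ / kap q := min_le_left _ _
    rw [le_div_iff₀ (by linarith)] at this
    linarith
  have npos : ∀ k, (0 : ℝ) < n k := fun k => by exact_mod_cast hpos k
  have hKT : 0 < K ^ T := by positivity
  have hmin0 : 0 < min p' ρ := lt_min hp' hρ0
  refine ⟨min p' ρ / K ^ T, div_pos hmin0 hKT, fun k x₀ hx₀ => ?_⟩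
  have hNk := npos k
  have cmp : ∀ (r : ℝ) (m : ℕ), min p' ρ ≤ r → (n m : ℝ) ≤ K ^ T * n k →
      min p' ρ / K ^ T / n k ≤ r / n m := by
    intro r m hr1 hm
    have hm0 := npos m
    rw [div_div, div_le_div_iff₀ (by positivity) hm0]
    exact mul_le_mul hr1 hm hm0.le (hmin0.le.trans hr1)
  by_cases hex : ∃ t, t < T ∧ K * (n (k + t) : ℝ) ≤ n (k + t + 1)
  · classical
    obtain ⟨t, ⟨htT, htbig⟩, hmin⟩ : ∃ t, (t < T ∧ K * (n (k + t) : ℝ) ≤ n (k + t + 1)) ∧
        ∀ i < t, ¬ (i < T ∧ K * (n (k + i) : ℝ) ≤ n (k + i + 1)) :=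
      ⟨Nat.find hex, Nat.find_spec hex, fun i hi => Nat.find_min hex hi⟩
    have hg := growth hK1 (n := n) k t (fun i hi hb => hmin i hi ⟨by omega, hb⟩)
    have hg' : (n (k + t) : ℝ) ≤ K ^ T * n k :=
      hg.trans (mul_le_mul_of_nonneg_right (pow_le_pow_right₀ hK1 htT.le) hNk.le)
    have hge : (n k : ℝ) ≤ n (k + t) := n_mono hq hr (by omega)
    have hval : |S n (k + t + 1) x₀ - ξ| ≤ 1 + T := by
      have h1 := S_steps n (k + 1) t x₀
      rw [show k + 1 + t = k + t + 1 by ring] at h1
      have h2 : (t : ℝ) ≤ T := by exact_mod_cast htT.le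
      calc |S n (k + t + 1) x₀ - ξ|
          = |(S n (k + t + 1) x₀ - S n (k + 1) x₀) + (S n (k + 1) x₀ - ξ)| := by congr 1; ring
        _ ≤ _ := abs_add_le _ _
        _ ≤ 1 + T := by linarith
    have hv := hB (k + t) x₀ htbig hval
    have hlen : 2 / (n (k + t) : ℝ) ≤ 2 / n k :=
      div_le_div_of_nonneg_left (by norm_num) hNk hge
    have hv' := mono_vol hv (H_anti n ξ δ (show k + 1 ≤ k + t + 1 by omega)) le_rfl
      (y' := x₀ + 2 / n k) (by linarith)
    exact le_trans (ENNReal.ofReal_le_ofReal (cmp p' _ (min_le_left _ _) hg')) hv'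
  · push Not at hex
    have hg := growth hK1 (n := n) k T (fun i hi hb => absurd hb (not_le.mpr (hex i hi)))
    have hN1 := npos (k + 1)
    have hk1 : (n k : ℝ) ≤ n (k + 1) := n_le_succ hq hr k
    have hge : (n k : ℝ) ≤ n (k + T) := n_mono hq hr (by omega)
    obtain ⟨o1, o2⟩ := hT (tail n k) (tail_lac hpos hr k) (1 / n (k + 1)) x₀ (by
      simp only [tail, add_zero]
      apply le_of_eq; field_simp)
    obtain ⟨z, hz, hgz⟩ := step_hit (g := fun x => S n (k + 1 + T) x - ξ)
      (Fx := F (tail n k) T) (a := x₀) (b := x₀ + 1 / n (k + 1)) (V := 1 + kap q)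
      (R := kap q + 2) ((S_cont n _).sub continuous_const) o1 o2 (by linarith) (by
        intro x hx
        have h1 := S_lip hq hr k x x₀
        have h2 := S_tail n k T x
        rw [h2]
        have e : S n (k + 1) x + F (tail n k) T x - ξ - F (tail n k) T x
            = (S n (k + 1) x - S n (k + 1) x₀) + (S n (k + 1) x₀ - ξ) := by ring
        rw [e]
        refine (abs_add_le _ _).trans ?_
        have h3 : |x - x₀| ≤ 1 / n (k + 1) := by
          rw [abs_of_nonneg (by linarith [hx.1])]; linarith [hx.2]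
        have h4 : kap q * n k * |x - x₀| ≤ kap q := by
          calc kap q * n k * |x - x₀| ≤ kap q * n k * (1 / n (k + 1)) :=
                mul_le_mul_of_nonneg_left h3 (by positivity)
            _ = kap q * (n k / n (k + 1)) := by ring
            _ ≤ kap q * 1 := by
                apply mul_le_mul_of_nonneg_left _ (by linarith)
                rw [div_le_one hN1]; exact hk1
            _ = kap q := mul_one _
        linarith)
    have hz' : S n (k + T + 1) z = ξ := by
      have : S n (k + 1 + T) z - ξ = 0 := hgz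
      rw [show k + T + 1 = k + 1 + T by ring]; linarith
    have hsub := hit_near hq hpos hr hρ0 hρδ (k + T) z hz'
    have hsub' := hsub.trans (H_anti n ξ δ (show k + 1 ≤ k + T + 1 by omega))
    have hlen : ρ / (n (k + T) : ℝ) ≤ 1 / n k := by
      apply div_le_div₀ (by norm_num) hρ1 hNk hge
    have hlen2 : 1 / (n (k + 1) : ℝ) ≤ 1 / n k :=
      div_le_div_of_nonneg_left (by norm_num) hNk hk1
    have hv := vol_sub hsub' hz.1 (y' := x₀ + 2 / n k) (by
      have : (2 : ℝ) / n k = 1 / n k + 1 / n k := by ring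
      linarith [hz.2])
    refine le_trans (ENNReal.ofReal_le_ofReal ?_) hv
    rw [add_sub_cancel_left]
    exact cmp ρ _ (min_le_right _ _) hg

end Claim

end Pool.Agent.V11203.LD
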