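import Pool.Agent.V11203.LD.Claim

open MeasureTheory Finset Filter Topology

namespace Pool.Agent.V11203.LD

section Main

variable {n : ℕ → ℕ} {q : ℝ}

lemma n_tendsto (hq : 1 < q) (hpos : ∀ k, 0 < n k)
    (hr : ∀ k, q * (n k : ℝ) ≤ (n (k + 1) : ℝ)) : Tendsto (fun k => (n k : ℝ)) atTop atTop := by
  have h : ∀ k, q ^ k ≤ (n k : ℝ) := by
    intro k
    induction k with
    | zero =>
      have : 1 ≤ n 0 := hpos 0
      rw [pow_zero]; exact_mod_cast this
    | succ k ih =>
      calc q ^ (k + 1) = q * q ^ k := by ring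
        _ ≤ q * n k := mul_le_mul_of_nonneg_left ih (by linarith)
        _ ≤ n (k + 1) := hr k
  exact tendsto_atTop_mono h (tendsto_pow_atTop_atTop_of_one_lt hq)

lemma dens (hq : 1 < q) (hpos : ∀ k, 0 < n k)
    (hr : ∀ k, q * (n k : ℝ) ≤ (n (k + 1) : ℝ)) (B : Set ℝ) (hB : MeasurableSet B) :
    ∀ᵐ x, x ∈ B → Tendsto (fun k => (volume (B ∩ Set.Icc x (x + 2 / n k))).toReal / (2 / n k))
      atTop (𝓝 1) := by
  have h := IsUnifLocDoublingMeasure.ae_tendsto_measure_inter_div (volume : Measure ℝ) B 1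
  rw [ae_restrict_iff' hB] at h
  filter_upwards [h] with x hx hxB
  have npos : ∀ k, (0 : ℝ) < n k := fun k => by exact_mod_cast hpos k
  have hball : ∀ k, Metric.closedBall (x + 1 / (n k : ℝ)) (1 / n k) = Set.Icc x (x + 2 / n k) := by
    intro k
    rw [Real.closedBall_eq_Icc]
    congr 1
    · ring
    · ring
  have h1 := hx hxB (l := atTop) (fun k => x + 1 / (n k : ℝ)) (fun k => 1 / (n k : ℝ)) (by
      rw [tendsto_nhdsWithin_iff]
      refine ⟨?_, Eventually.of_forall (fun k => ?_)⟩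
      · exact (tendsto_inv_atTop_zero.comp (n_tendsto hq hpos hr)).congr (fun k => by simp)
      · have := npos k
        simp only [Set.mem_Ioi]; positivity) (by
      refine Eventually.of_forall (fun k => ?_)
      rw [one_mul, hball]
      have := npos k
      exact ⟨le_rfl, by have : 0 < 2 / (n k : ℝ) := by positivity
                        linarith⟩)
  have h2 := (ENNReal.tendsto_toReal ENNReal.one_ne_top).comp h1
  rw [ENNReal.toReal_one] at h2
  refine h2.congr (fun k => ?_)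
  have := npos k
  simp only [Function.comp, hball, ENNReal.toReal_div, Real.volume_Icc]
  rw [add_sub_cancel_left, ENNReal.toReal_ofReal (by positivity)]

theorem null1 (hq : 1 < q) (hpos : ∀ k, 0 < n k)
    (hr : ∀ k, q * (n k : ℝ) ≤ (n (k + 1) : ℝ)) (ξ δ : ℝ) (hδ : 0 < δ) (M : ℕ) :
    ∀ᵐ x, (∃ᶠ k in atTop, |S n (k + 1) x - ξ| ≤ 1) → x ∈ H n ξ δ M := by
  have hBm : MeasurableSet (H n ξ δ M)ᶜ := (H_open n ξ δ M).measurableSet.compl
  filter_upwards [dens hq hpos hr _ hBm] with x hx hfreq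
  by_contra hxB
  have ht := hx hxB
  obtain ⟨p, hp, hcl⟩ := claim1 hq hpos hr ξ δ hδ
  have hev : ∀ᶠ k in atTop, 1 - p / 4 <
      (volume ((H n ξ δ M)ᶜ ∩ Set.Icc x (x + 2 / n k))).toReal / (2 / n k) :=
    ht.eventually (lt_mem_nhds (by linarith))
  obtain ⟨k, hk1, hk2, hk3⟩ := (hfreq.and_eventually (hev.and (eventually_ge_atTop M))).exists
  have hn : (0 : ℝ) < n k := by exact_mod_cast hpos k
  have hc := hcl k x hk1
  have hdis : Disjoint ((H n ξ δ M)ᶜ ∩ Set.Icc x (x + 2 / n k)) (H n ξ δ (k + 1) ∩ Set.Ico x (x + 2 / n k)) := by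
    apply Set.disjoint_left.mpr
    rintro y ⟨hy1, _⟩ ⟨hy2, _⟩
    exact hy1 (H_anti n ξ δ (by omega : M ≤ k + 1) hy2)
  have hsum : volume ((H n ξ δ M)ᶜ ∩ Set.Icc x (x + 2 / n k))
      + volume (H n ξ δ (k + 1) ∩ Set.Ico x (x + 2 / n k)) ≤ ENNReal.ofReal (2 / n k) := by
    rw [← measure_union hdis ((H_open n ξ δ (k + 1)).measurableSet.inter measurableSet_Ico)]
    have : ENNReal.ofReal (2 / (n k : ℝ)) = volume (Set.Icc x (x + 2 / n k)) := by
      rw [Real.volume_Icc, add_sub_cancel_left]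
    rw [this]
    apply measure_mono
    rintro y (⟨_, hy⟩ | ⟨_, hy⟩)
    · exact hy
    · exact ⟨hy.1, hy.2.le⟩
  have hb : (volume ((H n ξ δ M)ᶜ ∩ Set.Icc x (x + 2 / n k))).toReal + p / n k ≤ 2 / n k := by
    have h1 : volume ((H n ξ δ M)ᶜ ∩ Set.Icc x (x + 2 / n k)) + ENNReal.ofReal (p / n k)
        ≤ ENNReal.ofReal (2 / n k) := le_trans (add_le_add le_rfl hc) hsum
    have hfin : volume ((H n ξ δ M)ᶜ ∩ Set.Icc x (x + 2 / n k)) ≠ ⊤ :=
      ne_top_of_le_ne_top ENNReal.ofReal_ne_top (le_trans le_self_add h1)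
    have h2 := ENNReal.toReal_mono ENNReal.ofReal_ne_top h1
    rwa [ENNReal.toReal_add hfin ENNReal.ofReal_ne_top, ENNReal.toReal_ofReal (by positivity),
      ENNReal.toReal_ofReal (by positivity)] at h2
  rw [lt_div_iff₀ (by positivity)] at hk2
  have h3 : (1 - p / 4) * (2 / n k) = 2 / n k - p / n k / 2 := by ring
  have h4 : 0 < p / n k := by positivity
  linarith

theorem null2 (hq : 1 < q) (hpos : ∀ k, 0 < n k)
    (hr : ∀ k, q * (n k : ℝ) ≤ (n (k + 1) : ℝ)) (σ A : ℝ) (hσ : |σ| = 1) (M : ℕ) :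
    ∀ᵐ x, ¬ (∀ m, M ≤ m → -A ≤ σ * S n m x) := by
  set D : Set ℝ := {x | ∀ m, M ≤ m → -A ≤ σ * S n m x} with hD
  have hDc : IsClosed D := by
    have : D = ⋂ m : ℕ, ⋂ _ : M ≤ m, {x | -A ≤ σ * S n m x} := by
      ext x; simp [hD]
    rw [this]
    refine isClosed_iInter fun m => isClosed_iInter fun _ => ?_
    exact isClosed_le continuous_const (continuous_const.mul (S_cont n m))
  have hDm : MeasurableSet D := hDc.measurableSet
  filter_upwards [dens hq hpos hr _ hDm] with x hx hxD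
  have ht := hx hxD
  obtain ⟨c, hc, N₀, hN₀⟩ := m5 q hq
  have hK := KK_pos q hq
  have hK2 := K2_pos hq
  have hev : ∀ᶠ k in atTop, 1 - c ^ 2 / 64 <
      (volume (D ∩ Set.Icc x (x + 2 / n k))).toReal / (2 / n k) :=
    ht.eventually (lt_mem_nhds (by
      have : 0 < c ^ 2 / 64 := by positivity
      linarith))
  obtain ⟨k, hk2, hk3⟩ := (hev.and (eventually_ge_atTop M)).exists
  have hn : (0 : ℝ) < n k := by exact_mod_cast hpos k
  set L : ℝ := 2 / n k with hL
  have hLp : 0 < L := by positivity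
  have hab : x ≤ x + L := by linarith
  rw [lt_div_iff₀ hLp] at hk2
  -- measure of the complement
  have hcomp : (volume (Set.Ioc x (x + L) ∩ Dᶜ)).toReal ≤ c ^ 2 / 64 * L := by
    have hdis : Disjoint (D ∩ Set.Icc x (x + L)) (Set.Ioc x (x + L) ∩ Dᶜ) := by
      apply Set.disjoint_left.mpr
      rintro y ⟨hy1, _⟩ ⟨_, hy2⟩
      exact hy2 hy1
    have hsum : volume (D ∩ Set.Icc x (x + L)) + volume (Set.Ioc x (x + L) ∩ Dᶜ) ≤ ENNReal.ofReal L := by
      rw [← measure_union hdis (measurableSet_Ioc.inter hDm.compl)]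
      have : ENNReal.ofReal L = volume (Set.Icc x (x + L)) := by
        rw [Real.volume_Icc, add_sub_cancel_left]
      rw [this]
      apply measure_mono
      rintro y (⟨_, hy⟩ | ⟨hy, _⟩)
      · exact hy
      · exact ⟨hy.1.le, hy.2⟩
    have hf1 : volume (D ∩ Set.Icc x (x + L)) ≠ ⊤ :=
      ne_top_of_le_ne_top ENNReal.ofReal_ne_top (le_trans le_self_add hsum)
    have hf2 : volume (Set.Ioc x (x + L) ∩ Dᶜ) ≠ ⊤ :=
      ne_top_of_le_ne_top ENNReal.ofReal_ne_top (le_trans le_add_self hsum)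
    have h2 := ENNReal.toReal_mono ENNReal.ofReal_ne_top hsum
    rw [ENNReal.toReal_add hf1 hf2, ENNReal.toReal_ofReal hLp.le] at h2
    have : (1 - c ^ 2 / 64) * L = L - c ^ 2 / 64 * L := by ring
    linarith
  set A' : ℝ := |A| + (k + 1) with hA'
  have hA'0 : 0 ≤ A' := by positivity
  have hlac := tail_lac hpos hr k
  have hlamL : 1 ≤ tail n k 0 * L := by
    simp only [tail, add_zero]
    have h1 := n_le_succ hq hr k
    rw [hL, mul_div_assoc', le_div_iff₀ hn]
    linarith
  -- choose N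
  obtain ⟨N, hN⟩ := exists_nat_gt (max (max (N₀ : ℝ) 1)
    (((2 * KK q hq + 2 * A' + c * K2 q hq / 2) / (5 / 8 * c)) ^ 2))
  have hN1 : N₀ ≤ N := by
    have := ((le_max_left _ _).trans (le_max_left _ _)).trans hN.le
    exact_mod_cast this
  have hN2 : (1 : ℝ) ≤ N := ((le_max_right _ _).trans (le_max_left _ _)).trans hN.le
  have hN3 : 2 * KK q hq + 2 * A' + c * K2 q hq / 2 < 5 / 8 * c * Real.sqrt N := by
    have h1 : ((2 * KK q hq + 2 * A' + c * K2 q hq / 2) / (5 / 8 * c)) ^ 2 < N :=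
      (le_max_right _ _).trans_lt hN
    have h2 := Real.lt_sqrt_of_sq_lt h1
    rw [div_lt_iff₀ (by positivity)] at h2
    linarith
  have hNp : (0 : ℝ) < N := by linarith
  have hsN : 1 ≤ Real.sqrt N := by
    rw [Real.one_le_sqrt]; exact hN2
  have hsN2 : Real.sqrt N * Real.sqrt N = N := Real.mul_self_sqrt hNp.le
  set s : ℝ := 4 / c * Real.sqrt N with hs
  have hs0 : 0 < s := by positivity
  set lam := tail n k with hlam
  have hFc := F_cont lam N
  -- pointwise inequality
  have hpt : ∀ y ∈ Set.Icc x (x + L), |F lam N y| ≤ σ * F lam N y + 2 * A'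
      + 2 * s * (Dᶜ).indicator (fun _ => (1 : ℝ)) y + 2 / s * (F lam N y) ^ 2 := by
    intro y _
    set f := F lam N y with hf
    have hσ2 : |σ * f| = |f| := by rw [abs_mul, hσ, one_mul]
    have hi0 : 0 ≤ (Dᶜ).indicator (fun _ => (1 : ℝ)) y :=
      Set.indicator_nonneg (fun _ _ => zero_le_one) _
    have hf2 : 0 ≤ 2 / s * f ^ 2 := by positivity
    rcases le_total 0 (σ * f) with h0 | h0
    · rw [abs_of_nonneg h0] at hσ2
      rw [← hσ2]
      have : 0 ≤ 2 * s * (Dᶜ).indicator (fun _ => (1 : ℝ)) y := by positivity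
      linarith
    · rw [abs_of_nonpos h0] at hσ2
      by_cases hyD : y ∈ D
      · have h1 := hyD (k + 1 + N) (by omega)
        rw [S_tail, mul_add] at h1
        have h2 : |σ * S n (k + 1) y| ≤ k + 1 := by
          rw [abs_mul, hσ, one_mul]
          have := S_abs n (k + 1) y
          push_cast at this; exact this
        have h3 := (abs_le.mp h2).2
        have h4 : -(σ * f) ≤ A' := by
          have := le_abs_self A
          rw [hA']; linarith
        have : 0 ≤ 2 * s * (Dᶜ).indicator (fun _ => (1 : ℝ)) y := by positivity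
        linarith
      · rw [Set.indicator_of_mem (by exact hyD : y ∈ Dᶜ)]
        have h1 : 2 * |f| ≤ 2 * s + 2 / s * f ^ 2 := by
          have h2 : |f| ≤ s + f ^ 2 / s := by
            rw [← sub_nonneg]
            have h3 : s + f ^ 2 / s - |f| = (s ^ 2 + |f| ^ 2 - s * |f|) / s := by
              rw [sq_abs]; field_simp
            rw [h3]
            apply div_nonneg _ hs0.le
            nlinarith [sq_nonneg (s - |f|), sq_nonneg s, sq_nonneg |f|, abs_nonneg f]
          have h3 : 2 / s * f ^ 2 = 2 * (f ^ 2 / s) := by ring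
          rw [h3]; linarith
        linarith
  have hind : IntervalIntegrable ((Dᶜ).indicator fun _ => (1 : ℝ)) volume x (x + L) := by
    rw [intervalIntegrable_iff]
    apply Integrable.indicator _ hDm.compl
    rw [← IntegrableOn, ← intervalIntegrable_iff]
    exact intervalIntegrable_const
  have hint : ∫ y in x..(x + L), |F lam N y| ≤ ∫ y in x..(x + L), (σ * F lam N y + 2 * A'
      + 2 * s * (Dᶜ).indicator (fun _ => (1 : ℝ)) y + 2 / s * (F lam N y) ^ 2) := by
    apply intervalIntegral.integral_mono_on hab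
    · exact Continuous.intervalIntegrable (by fun_prop) _ _
    · exact ((Continuous.intervalIntegrable (by fun_prop) _ _).add (hind.const_mul _)).add
        (Continuous.intervalIntegrable (by fun_prop) _ _)
    · exact hpt
  rw [intervalIntegral.integral_add ((Continuous.intervalIntegrable (by fun_prop) _ _).add (hind.const_mul _))
      (Continuous.intervalIntegrable (by fun_prop) _ _),
    intervalIntegral.integral_add (Continuous.intervalIntegrable (by fun_prop) _ _) (hind.const_mul _),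
    intervalIntegral.integral_add (Continuous.intervalIntegrable (by fun_prop) _ _)
      (Continuous.intervalIntegrable (by fun_prop) _ _),
    intervalIntegral.integral_const_mul σ, intervalIntegral.integral_const_mul (2 * s),
    intervalIntegral.integral_const_mul (2 / s), intervalIntegral.integral_const, smul_eq_mul] at hint
  have hindv : ∫ y in x..(x + L), (Dᶜ).indicator (fun _ => (1 : ℝ)) y
      = (volume (Set.Ioc x (x + L) ∩ Dᶜ)).toReal := by
    rw [intervalIntegral.integral_of_le hab, setIntegral_indicator hDm.compl, setIntegral_const,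
      smul_eq_mul, mul_one]
    rfl
  rw [hindv] at hint
  have g1 := m1 hq hlac one_pos hlamL x N
  rw [div_one] at g1
  have g2 := m2' hq hlac hlamL x N
  have g3 := hN₀ lam hlac L x hlamL N hN1
  have g4 : σ * ∫ y in x..(x + L), F lam N y ≤ 2 * KK q hq * L := by
    refine (le_abs_self _).trans ?_
    rw [abs_mul, hσ, one_mul]; exact g1
  have g5 : 2 * s * (volume (Set.Ioc x (x + L) ∩ Dᶜ)).toReal ≤ c / 8 * Real.sqrt N * L := by
    calc 2 * s * (volume (Set.Ioc x (x + L) ∩ Dᶜ)).toReal ≤ 2 * s * (c ^ 2 / 64 * L) :=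
          mul_le_mul_of_nonneg_left hcomp (by positivity)
      _ = c / 8 * Real.sqrt N * L := by rw [hs]; field_simp; ring
  have g6 : 2 / s * ∫ y in x..(x + L), (F lam N y) ^ 2 ≤ (c / 4 * Real.sqrt N + c * K2 q hq / 2) * L := by
    have h1 : 2 / s = c / (2 * Real.sqrt N) := by rw [hs]; field_simp; ring
    rw [h1]
    calc c / (2 * Real.sqrt N) * ∫ y in x..(x + L), (F lam N y) ^ 2
        ≤ c / (2 * Real.sqrt N) * ((N * (1 / 2) + K2 q hq) * L) :=
          mul_le_mul_of_nonneg_left g2 (by positivity)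
      _ = (c / 4 * (N / Real.sqrt N) + c * K2 q hq / (2 * Real.sqrt N)) * L := by
          field_simp
          ring
      _ ≤ (c / 4 * Real.sqrt N + c * K2 q hq / 2) * L := by
          apply mul_le_mul_of_nonneg_right _ hLp.le
          have h2 : (N : ℝ) / Real.sqrt N = Real.sqrt N := by
            rw [div_eq_iff (by positivity)]; exact hsN2.symm
          rw [h2]
          have h3 : c * K2 q hq / (2 * Real.sqrt N) ≤ c * K2 q hq / 2 := by
            apply div_le_div_of_nonneg_left (by positivity) (by norm_num)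
            linarith
          linarith
  have hfin : c * Real.sqrt N * L ≤ (2 * KK q hq + 2 * A' + c / 8 * Real.sqrt N
      + (c / 4 * Real.sqrt N + c * K2 q hq / 2)) * L := by
    have e1 : (x + L - x) * (2 * A') = 2 * A' * L := by ring
    rw [e1] at hint
    linarith
  have hfin2 := le_of_mul_le_mul_right hfin hLp
  linarith

lemma crossing (x ξ : ℝ) (h1 : ∀ M, ∃ m, M ≤ m ∧ S n m x < ξ) (h2 : ∀ M, ∃ m, M ≤ m ∧ ξ < S n m x) :
    ∃ᶠ k in atTop, |S n (k + 1) x - ξ| ≤ 1 := by
  rw [frequently_atTop]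
  intro a
  obtain ⟨m1, hm1, hs1⟩ := h1 a
  obtain ⟨m2, hm2, hs2⟩ := h2 m1
  classical
  have hex : ∃ j, ξ < S n (m1 + j) x := ⟨m2 - m1, by
    rw [Nat.add_sub_of_le hm2]; exact hs2⟩
  obtain ⟨j, hj, hmin⟩ : ∃ j, ξ < S n (m1 + j) x ∧ ∀ i < j, ¬ (ξ < S n (m1 + i) x) :=
    ⟨Nat.find hex, Nat.find_spec hex, fun i hi => Nat.find_min hex hi⟩
  cases j with
  | zero => simp at hj; linarith
  | succ i =>
    have h3 := hmin i (Nat.lt_succ_self i)
    push Not at h3
    refine ⟨m1 + i, by omega, ?_⟩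
    have h4 := (abs_le.mp (S_step n (m1 + i) x)).2
    have h5 : ξ < S n (m1 + i + 1) x := by rw [add_assoc]; exact hj
    rw [abs_of_pos (by linarith)]
    linarith

theorem dense_ae (hq : 1 < q) (hpos : ∀ k, 0 < n k)
    (hr : ∀ k, q * (n k : ℝ) ≤ (n (k + 1) : ℝ)) :
    ∀ᵐ x, ∀ ξ : ℝ, ∀ ε : ℝ, 0 < ε → ∃ᶠ m in atTop, |S n m x - ξ| < ε := by
  have a1 : ∀ᵐ x, ∀ (r : ℚ) (i M : ℕ), (∃ᶠ k in atTop, |S n (k + 1) x - r| ≤ 1) →
      x ∈ H n r (1 / (i + 1)) M := by
    rw [ae_all_iff]; intro r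
    rw [ae_all_iff]; intro i
    rw [ae_all_iff]; intro M
    exact null1 hq hpos hr r (1 / (i + 1)) (by positivity) M
  have a2 : ∀ᵐ x, ∀ (r : ℚ) (M : ℕ), ¬ (∀ m, M ≤ m → -(-(r : ℝ)) ≤ 1 * S n m x) := by
    rw [ae_all_iff]; intro r
    rw [ae_all_iff]; intro M
    exact null2 hq hpos hr 1 (-r) (by norm_num) M
  have a3 : ∀ᵐ x, ∀ (r : ℚ) (M : ℕ), ¬ (∀ m, M ≤ m → -(r : ℝ) ≤ (-1) * S n m x) := by
    rw [ae_all_iff]; intro r
    rw [ae_all_iff]; intro M
    exact null2 hq hpos hr (-1) r (by norm_num) M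
  filter_upwards [a1, a2, a3] with x h1 h2 h3 ξ ε hε
  obtain ⟨r, hr1, hr2⟩ := exists_rat_btwn (show ξ - ε / 2 < ξ + ε / 2 by linarith)
  obtain ⟨i, hi⟩ := exists_nat_one_div_lt (show 0 < ε / 2 by positivity)
  have hfreq : ∃ᶠ k in atTop, |S n (k + 1) x - r| ≤ 1 := by
    apply crossing
    · intro M
      have := h2 r M
      push Not at this
      obtain ⟨m, hm, hs⟩ := this
      exact ⟨m, hm, by linarith⟩
    · intro M
      have := h3 r M
      push Not at this
      obtain ⟨m, hm, hs⟩ := this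
      exact ⟨m, hm, by linarith⟩
  rw [frequently_atTop]
  intro M
  obtain ⟨m, hm, hs⟩ := h1 r i M hfreq
  refine ⟨m, hm, ?_⟩
  rw [abs_lt] at hs ⊢
  constructor <;> linarith [hs.1, hs.2]

end Main

end Pool.Agent.V11203.LD
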