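import Mathlib

/-!
Moment estimates on intervals for lacunary cosine sums with real frequencies.
-/

open MeasureTheory intervalIntegral Finset

namespace Pool.Agent.V11203.LD

/-- lacunary cosine sum with frequencies `lam` -/
noncomputable def F (lam : ℕ → ℝ) (N : ℕ) (x : ℝ) : ℝ := ∑ j ∈ range N, Real.cos (lam j * x)

lemma F_zero (lam : ℕ → ℝ) (x : ℝ) : F lam 0 x = 0 := by simp [F]

lemma F_succ (lam : ℕ → ℝ) (N : ℕ) (x : ℝ) :
    F lam (N + 1) x = F lam N x + Real.cos (lam N * x) := by
  simp [F, Finset.sum_range_succ]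

lemma F_cont (lam : ℕ → ℝ) (N : ℕ) : Continuous (F lam N) := by
  unfold F; fun_prop

lemma F_abs_le (lam : ℕ → ℝ) (N : ℕ) (x : ℝ) : |F lam N x| ≤ N := by
  unfold F
  calc |∑ j ∈ range N, Real.cos (lam j * x)| ≤ ∑ j ∈ range N, |Real.cos (lam j * x)| :=
        Finset.abs_sum_le_sum_abs _ _
    _ ≤ ∑ j ∈ range N, (1 : ℝ) := Finset.sum_le_sum (fun j _ => Real.abs_cos_le_one _)
    _ = N := by simp

lemma F_diff_le (lam : ℕ → ℝ) (N r : ℕ) (x : ℝ) : |F lam (N + r) x - F lam N x| ≤ r := by
  induction r with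
  | zero => simp
  | succ r ih =>
    rw [← add_assoc, F_succ]
    push_cast
    have h1 := Real.abs_cos_le_one (lam (N + r) * x)
    calc |F lam (N + r) x + Real.cos (lam (N + r) * x) - F lam N x|
        = |(F lam (N + r) x - F lam N x) + Real.cos (lam (N + r) * x)| := by congr 1; ring
      _ ≤ |F lam (N + r) x - F lam N x| + |Real.cos (lam (N + r) * x)| := abs_add_le _ _
      _ ≤ r + 1 := by linarith

lemma cosint (a b μ : ℝ) (hμ : 0 < μ) : |∫ x in a..b, Real.cos (μ * x)| ≤ 2 / μ := by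
  rw [intervalIntegral.integral_comp_mul_left (fun x => Real.cos x) hμ.ne', integral_cos, smul_eq_mul,
    abs_mul, abs_of_pos (inv_pos.mpr hμ), div_eq_inv_mul]
  apply mul_le_mul_of_nonneg_left _ (inv_pos.mpr hμ).le
  have h1 := Real.abs_sin_le_one (μ * b)
  have h2 := Real.abs_sin_le_one (μ * a)
  calc |Real.sin (μ * b) - Real.sin (μ * a)| ≤ |Real.sin (μ * b)| + |Real.sin (μ * a)| :=
        abs_sub _ _
    _ ≤ 2 := by linarith

/-- all cosine coefficients of `g` on `[a,b]` at frequencies at least `μ₀` are at most `B` -/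
def Bd (a b : ℝ) (g : ℝ → ℝ) (μ₀ B : ℝ) : Prop :=
  ∀ μ, μ₀ ≤ μ → |∫ x in a..b, g x * Real.cos (μ * x)| ≤ B

lemma Bd_one (a b μ₀ : ℝ) (h : 0 < μ₀) : Bd a b (fun _ => 1) μ₀ (2 / μ₀) := by
  intro μ hμ
  simp only [one_mul]
  refine (cosint a b μ (by linarith)).trans ?_
  exact div_le_div_of_nonneg_left (by norm_num) h hμ

lemma Bd_cos {a b μ₀ B β c : ℝ} {g : ℝ → ℝ} (hg : Continuous g) (hβ : |c| ≤ β)
    (h : Bd a b g μ₀ B) : Bd a b (fun x => g x * Real.cos (c * x)) (μ₀ + β) B := by
  intro μ hμ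
  have h1 := h (μ + c) (by linarith [neg_abs_le c])
  have h2 := h (μ - c) (by linarith [le_abs_self c])
  have e : ∀ x, g x * Real.cos (c * x) * Real.cos (μ * x)
      = (1 / 2) * (g x * Real.cos ((μ + c) * x)) + (1 / 2) * (g x * Real.cos ((μ - c) * x)) := by
    intro x
    rw [add_mul, sub_mul, Real.cos_add, Real.cos_sub]; ring
  simp_rw [e]
  rw [intervalIntegral.integral_add, intervalIntegral.integral_const_mul,
    intervalIntegral.integral_const_mul]
  · rw [abs_le] at *
    constructor <;> linarith [h1.1, h1.2, h2.1, h2.2]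
  · exact Continuous.intervalIntegrable (by fun_prop) _ _
  · exact Continuous.intervalIntegrable (by fun_prop) _ _

lemma Bd_F {a b μ₀ B β : ℝ} {g : ℝ → ℝ} (hg : Continuous g) (lam : ℕ → ℝ) (M : ℕ)
    (hβ : ∀ j < M, |lam j| ≤ β) (h : Bd a b g μ₀ B) :
    Bd a b (fun x => g x * F lam M x) (μ₀ + β) (M * B) := by
  induction M with
  | zero =>
    intro μ hμ
    simp [F_zero]
  | succ M ih =>
    intro μ hμ
    have h1 := ih (fun j hj => hβ j (by omega)) μ hμ
    have h2 := Bd_cos hg (hβ M (by omega)) h μ hμ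
    have e : ∀ x, g x * F lam (M + 1) x * Real.cos (μ * x)
        = g x * F lam M x * Real.cos (μ * x) + g x * Real.cos (lam M * x) * Real.cos (μ * x) := by
      intro x; rw [F_succ]; ring
    simp_rw [e]
    have hF := F_cont lam M
    rw [intervalIntegral.integral_add]
    · push_cast
      calc _ ≤ _ := abs_add_le _ _
        _ ≤ M * B + B := add_le_add h1 h2
        _ = (M + 1) * B := by ring
    · exact Continuous.intervalIntegrable (by fun_prop) _ _
    · exact Continuous.intervalIntegrable (by fun_prop) _ _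

/-- the cube of a sum of low frequencies is almost orthogonal to a high frequency -/
lemma cube_orth (a b : ℝ) (lam : ℕ → ℝ) (M : ℕ) (μ : ℝ) (hμ : 0 < μ)
    (h : ∀ j < M, |lam j| ≤ μ / 6) :
    |∫ x in a..b, (F lam M x) ^ 3 * Real.cos (μ * x)| ≤ (M : ℝ) ^ 3 * (4 / μ) := by
  have hF := F_cont lam M
  have h0 := Bd_one a b (μ / 2) (by positivity)
  have h1 := Bd_F (g := fun _ => 1) continuous_const lam M h h0
  have h2 := Bd_F (g := fun x => 1 * F lam M x) (by fun_prop) lam M h h1
  have h3 := Bd_F (g := fun x => 1 * F lam M x * F lam M x) (by fun_prop) lam M h h2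
  have h4 := h3 μ (by linarith)
  have e : ∀ x, (F lam M x) ^ 3 * Real.cos (μ * x)
      = 1 * F lam M x * F lam M x * F lam M x * Real.cos (μ * x) := by intro x; ring
  simp_rw [e]
  refine h4.trans (le_of_eq ?_)
  field_simp
  norm_num

/-- ratio condition -/
structure Lac (q : ℝ) (lam : ℕ → ℝ) : Prop where
  pos : 0 < lam 0
  ratio : ∀ j, q * lam j ≤ lam (j + 1)

namespace Lac
variable {q : ℝ} {lam : ℕ → ℝ}

lemma pos' (hq : 1 < q) (h : Lac q lam) (j : ℕ) : 0 < lam j := by
  induction j with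
  | zero => exact h.pos
  | succ j ih => exact lt_of_lt_of_le (by positivity) (h.ratio j)

lemma pow_le (hq : 1 < q) (h : Lac q lam) (i j : ℕ) : q ^ j * lam i ≤ lam (i + j) := by
  induction j with
  | zero => simp
  | succ j ih =>
    calc q ^ (j + 1) * lam i = q * (q ^ j * lam i) := by ring
      _ ≤ q * lam (i + j) := mul_le_mul_of_nonneg_left ih (by linarith)
      _ ≤ lam (i + j + 1) := h.ratio _

lemma mono (hq : 1 < q) (h : Lac q lam) (i j : ℕ) (hij : i ≤ j) : lam i ≤ lam j := by
  obtain ⟨d, rfl⟩ := Nat.exists_eq_add_of_le hij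
  refine le_trans ?_ (h.pow_le hq i d)
  have := h.pos' hq i
  exact le_mul_of_one_le_left this.le (one_le_pow₀ hq.le)

lemma inv_le (hq : 1 < q) (h : Lac q lam) {L C : ℝ} (hC : 0 < C) (hL : C ≤ lam 0 * L) (j : ℕ) :
    1 / lam j ≤ (L / C) * (1 / q) ^ j := by
  have h0 := h.pos
  have h1 : q ^ j * lam 0 ≤ lam j := by simpa using h.pow_le hq 0 j
  have h2 : 1 / lam j ≤ 1 / (q ^ j * lam 0) :=
    one_div_le_one_div_of_le (by positivity) h1
  have h3 : 1 / lam 0 ≤ L / C := by
    rw [div_le_div_iff₀ h0 hC]; linarith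
  calc 1 / lam j ≤ 1 / (q ^ j * lam 0) := h2
    _ = (1 / lam 0) * (1 / q) ^ j := by rw [one_div_pow]; field_simp
    _ ≤ (L / C) * (1 / q) ^ j := mul_le_mul_of_nonneg_right h3 (by positivity)

lemma gap (hq : 1 < q) (h : Lac q lam) {i j : ℕ} (hij : i < j) :
    lam j * ((q - 1) / q) ≤ lam j - lam i := by
  have h1 : lam (i + 1) ≤ lam j := h.mono hq _ _ hij
  have h2 := h.ratio i
  have h3 : lam i ≤ lam j / q := by
    rw [le_div_iff₀ (by linarith)]; linarith
  have h4 : lam j * ((q - 1) / q) = lam j - lam j / q := by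
    field_simp
  linarith

end Lac

/-- a uniform constant for `∑ (n+1)^3 q^{-n}` -/
lemma exists_geom (q : ℝ) (hq : 1 < q) :
    ∃ K : ℝ, 0 < K ∧ ∀ N : ℕ, ∑ n ∈ range N, ((n : ℝ) + 1) ^ 3 * (1 / q) ^ n ≤ K := by
  have hq1 : |1 / q| < 1 := by
    rw [abs_of_pos (by positivity)]
    rw [div_lt_one (by linarith)]; exact hq
  have hs : Summable (fun n : ℕ => ((n : ℝ) + 1) ^ 3 * (1 / q) ^ n) := by
    have h3 := summable_pow_mul_geometric_of_norm_lt_one 3 (r := 1 / q) (by simpa using hq1)
    have h2 := summable_pow_mul_geometric_of_norm_lt_one 2 (r := 1 / q) (by simpa using hq1)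
    have h1 := summable_pow_mul_geometric_of_norm_lt_one 1 (r := 1 / q) (by simpa using hq1)
    have h0 := summable_pow_mul_geometric_of_norm_lt_one 0 (r := 1 / q) (by simpa using hq1)
    have := (h3.add (h2.mul_left 3)).add ((h1.mul_left 3).add h0)
    refine this.congr (fun n => ?_)
    ring
  refine ⟨(∑' n : ℕ, ((n : ℝ) + 1) ^ 3 * (1 / q) ^ n) + 1, ?_, fun N => ?_⟩
  · have : 0 ≤ ∑' n : ℕ, ((n : ℝ) + 1) ^ 3 * (1 / q) ^ n :=
      tsum_nonneg (fun n => by positivity)
    linarith
  · have := hs.sum_le_tsum (range N) (fun n _ => by positivity)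
    linarith


/-- the constant -/
noncomputable def KK (q : ℝ) (hq : 1 < q) : ℝ := (exists_geom q hq).choose

lemma KK_pos (q : ℝ) (hq : 1 < q) : 0 < KK q hq := (exists_geom q hq).choose_spec.1

lemma KK_sum (q : ℝ) (hq : 1 < q) (N : ℕ) :
    ∑ n ∈ range N, ((n : ℝ) + 1) ^ 3 * (1 / q) ^ n ≤ KK q hq :=
  (exists_geom q hq).choose_spec.2 N

lemma KK_term (q : ℝ) (hq : 1 < q) (N : ℕ) : ((N : ℝ) + 1) ^ 3 * (1 / q) ^ N ≤ KK q hq := by
  refine le_trans ?_ (KK_sum q hq (N + 1))
  have hq0 : 0 < q := by linarith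
  exact Finset.single_le_sum (f := fun n : ℕ => ((n : ℝ) + 1) ^ 3 * (1 / q) ^ n)
    (fun n _ => by positivity) (Finset.mem_range.mpr (Nat.lt_succ_self N))

section Bounds

variable {q : ℝ} (hq : 1 < q) {lam : ℕ → ℝ} (h : Lac q lam) {L C : ℝ} (hC : 0 < C)
  (hL : C ≤ lam 0 * L) (a : ℝ)

include hq h hC hL

lemma L_pos : 0 < L := by
  by_contra hcon
  have := h.pos
  nlinarith

lemma m1 (N : ℕ) : |∫ x in a..(a + L), F lam N x| ≤ 2 * KK q hq * (L / C) := by
  have hLp := L_pos hq h hC hL
  have h1 : ∀ N : ℕ, |∫ x in a..(a + L), F lam N x| ≤ ∑ j ∈ range N, 2 * (L / C) * (1 / q) ^ j := by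
    intro N
    induction N with
    | zero => simp [F_zero]
    | succ N ih =>
      have e : ∀ x, F lam (N + 1) x = F lam N x + Real.cos (lam N * x) := F_succ lam N
      simp_rw [e]
      rw [intervalIntegral.integral_add ((F_cont lam N).intervalIntegrable _ _)
        (Continuous.intervalIntegrable (by fun_prop) _ _), Finset.sum_range_succ]
      refine (abs_add_le _ _).trans (add_le_add ih ?_)
      refine (cosint _ _ _ (h.pos' hq N)).trans ?_
      have := h.inv_le hq hC hL N
      calc 2 / lam N = 2 * (1 / lam N) := by ring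
        _ ≤ 2 * ((L / C) * (1 / q) ^ N) := by linarith
        _ = _ := by ring
  refine (h1 N).trans ?_
  have h2 : ∑ j ∈ range N, 2 * (L / C) * (1 / q) ^ j
      ≤ 2 * (L / C) * ∑ j ∈ range N, ((j : ℝ) + 1) ^ 3 * (1 / q) ^ j := by
    rw [Finset.mul_sum]
    apply Finset.sum_le_sum
    intro j _
    have hq0 : 0 < q := by linarith
    have h3 : (1 / q) ^ j ≤ ((j : ℝ) + 1) ^ 3 * (1 / q) ^ j := by
      apply le_mul_of_one_le_left (by positivity)
      apply one_le_pow₀
      have : (0 : ℝ) ≤ j := Nat.cast_nonneg j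
      linarith
    exact mul_le_mul_of_nonneg_left h3 (by positivity)
  refine h2.trans ?_
  calc 2 * (L / C) * ∑ j ∈ range N, ((j : ℝ) + 1) ^ 3 * (1 / q) ^ j
      ≤ 2 * (L / C) * KK q hq := mul_le_mul_of_nonneg_left (KK_sum q hq N) (by positivity)
    _ = _ := by ring

lemma cross (N : ℕ) : |∫ x in a..(a + L), F lam N x * Real.cos (lam N * x)|
    ≤ N * (2 * q / (q - 1)) * (1 / lam N) := by
  have hp := h.pos' hq N
  have hq0 : 0 < q := by linarith
  have hq1 : 0 < q - 1 := by linarith
  have hμ : 0 < lam N * ((q - 1) / q) := by positivity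
  have h0 := Bd_one a (a + L) (lam N * ((q - 1) / q)) hμ
  have h1 := Bd_F (g := fun _ => 1) continuous_const lam N (β := lam N / q) (by
    intro j hj
    rw [abs_of_pos (h.pos' hq j), le_div_iff₀ hq0]
    have := h.ratio j
    have := h.mono hq (j + 1) N hj
    linarith) h0
  have h2 := h1 (lam N) (by
    apply le_of_eq
    field_simp
    ring)
  simp only [one_mul] at h2
  refine h2.trans (le_of_eq ?_)
  field_simp

/-- the constant in the second moment -/
noncomputable def K2 (q : ℝ) (hq : 1 < q) : ℝ := (4 * q / (q - 1) + 1) * KK q hq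

omit h hC hL in
lemma K2_pos : 0 < K2 q hq := by
  unfold K2
  have := KK_pos q hq
  have : 0 < q - 1 := by linarith
  positivity

lemma m2 (N : ℕ) : |(∫ x in a..(a + L), (F lam N x) ^ 2) - N * (L / 2)| ≤ K2 q hq * (L / C) := by
  have hLp := L_pos hq h hC hL
  have hq0 : 0 < q := by linarith
  have hq1 : 0 < q - 1 := by linarith
  have h1 : ∀ N : ℕ, |(∫ x in a..(a + L), (F lam N x) ^ 2) - N * (L / 2)|
      ≤ ∑ j ∈ range N, (4 * q / (q - 1) + 1) * (L / C) * (((j : ℝ) + 1) ^ 3 * (1 / q) ^ j) := by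
    intro N
    induction N with
    | zero => simp [F_zero]
    | succ N ih =>
      have hp := h.pos' hq N
      have e : ∀ x, (F lam (N + 1) x) ^ 2 = (F lam N x) ^ 2
          + (2 * (F lam N x * Real.cos (lam N * x)) + (1 / 2 + (1 / 2) * Real.cos (2 * lam N * x))) := by
        intro x
        have : Real.cos (2 * lam N * x) = 2 * Real.cos (lam N * x) ^ 2 - 1 := by
          rw [show 2 * lam N * x = 2 * (lam N * x) by ring, Real.cos_two_mul]
        rw [F_succ, this]; ring
      simp_rw [e]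
      have hF := F_cont lam N
      rw [intervalIntegral.integral_add (Continuous.intervalIntegrable (by fun_prop) _ _)
        (Continuous.intervalIntegrable (by fun_prop) _ _),
        intervalIntegral.integral_add (Continuous.intervalIntegrable (by fun_prop) _ _)
        (Continuous.intervalIntegrable (by fun_prop) _ _),
        intervalIntegral.integral_add (Continuous.intervalIntegrable (by fun_prop) _ _)
        (Continuous.intervalIntegrable (by fun_prop) _ _),
        intervalIntegral.integral_const_mul, intervalIntegral.integral_const_mul,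
        intervalIntegral.integral_const, Finset.sum_range_succ]
      have c1 := cross hq h hC hL a N
      have c2 := cosint a (a + L) (2 * lam N) (by positivity)
      have c3 := h.inv_le hq hC hL N
      have e1 : (∫ x in a..(a + L), (F lam N x) ^ 2)
          + (2 * (∫ x in a..(a + L), F lam N x * Real.cos (lam N * x))
            + ((a + L - a) • (1 / 2 : ℝ) + (1 / 2) * ∫ x in a..(a + L), Real.cos (2 * lam N * x)))
          - ((N + 1 : ℕ) : ℝ) * (L / 2)
          = ((∫ x in a..(a + L), (F lam N x) ^ 2) - N * (L / 2))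
            + (2 * (∫ x in a..(a + L), F lam N x * Real.cos (lam N * x))
              + (1 / 2) * ∫ x in a..(a + L), Real.cos (2 * lam N * x)) := by
        rw [smul_eq_mul]; push_cast; ring
      rw [e1]
      refine (abs_add_le _ _).trans (add_le_add ih ?_)
      refine (abs_add_le _ _).trans ?_
      rw [abs_mul, abs_mul, abs_of_pos (by norm_num : (0 : ℝ) < 2),
        abs_of_pos (by norm_num : (0 : ℝ) < 1 / 2)]
      have hN1 : (1 : ℝ) ≤ (N : ℝ) + 1 := by
        have : (0 : ℝ) ≤ N := Nat.cast_nonneg N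
        linarith
      have hN3 : (N : ℝ) + 1 ≤ ((N : ℝ) + 1) ^ 3 := by
        calc (N : ℝ) + 1 = ((N : ℝ) + 1) ^ 1 := (pow_one _).symm
          _ ≤ ((N : ℝ) + 1) ^ 3 := pow_le_pow_right₀ hN1 (by norm_num)
      have hx : 0 ≤ 1 / lam N := by positivity
      calc 2 * |∫ x in a..(a + L), F lam N x * Real.cos (lam N * x)|
            + (1 / 2) * |∫ x in a..(a + L), Real.cos (2 * lam N * x)|
          ≤ 2 * (N * (2 * q / (q - 1)) * (1 / lam N)) + (1 / 2) * (2 / (2 * lam N)) := by linarith
        _ = (N * (4 * q / (q - 1)) + 1 / 2) * (1 / lam N) := by field_simp; ring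
        _ ≤ ((N + 1) * (4 * q / (q - 1)) + (N + 1)) * (1 / lam N) := by
            apply mul_le_mul_of_nonneg_right _ hx
            have h5 : (N : ℝ) * (4 * q / (q - 1)) ≤ (N + 1) * (4 * q / (q - 1)) := by
              apply mul_le_mul_of_nonneg_right (by linarith) (by positivity)
            linarith
        _ = (4 * q / (q - 1) + 1) * (((N : ℝ) + 1) * (1 / lam N)) := by ring
        _ ≤ (4 * q / (q - 1) + 1) * (((N : ℝ) + 1) ^ 3 * ((L / C) * (1 / q) ^ N)) := by
            apply mul_le_mul_of_nonneg_left _ (by positivity)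
            exact mul_le_mul hN3 c3 hx (by positivity)
        _ = (4 * q / (q - 1) + 1) * (L / C) * (((N : ℝ) + 1) ^ 3 * (1 / q) ^ N) := by ring
  refine (h1 N).trans ?_
  rw [← Finset.mul_sum]
  calc (4 * q / (q - 1) + 1) * (L / C) * ∑ j ∈ range N, ((j : ℝ) + 1) ^ 3 * (1 / q) ^ j
      ≤ (4 * q / (q - 1) + 1) * (L / C) * KK q hq :=
        mul_le_mul_of_nonneg_left (KK_sum q hq N) (by positivity)
    _ = _ := by unfold K2; ring

end Bounds

end Pool.Agent.V11203.LD
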