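import Pool.Agent.V11203.LD.Moments

/-!
Fourth moments, first absolute moments, and oscillation of lacunary cosine sums on intervals.
-/

open MeasureTheory intervalIntegral Finset

namespace Pool.Agent.V11203.LD

lemma mono_int {f g : ℝ → ℝ} {a b : ℝ} (hab : a ≤ b) (hf : Continuous f) (hg : Continuous g)
    (h : ∀ x ∈ Set.Icc a b, f x ≤ g x) : ∫ x in a..b, f x ≤ ∫ x in a..b, g x :=
  intervalIntegral.integral_mono_on hab (hf.intervalIntegrable _ _) (hg.intervalIntegrable _ _) h

section Four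

variable {q : ℝ} (hq : 1 < q) {lam : ℕ → ℝ} (h : Lac q lam) {L : ℝ}
  (hL : 1 ≤ lam 0 * L) (a : ℝ)

lemma exists_r (q : ℝ) (hq : 1 < q) : ∃ r : ℕ, 6 ≤ q ^ r := by
  obtain ⟨r, hr⟩ := pow_unbounded_of_one_lt 6 hq
  exact ⟨r, hr.le⟩

noncomputable def rr (q : ℝ) (hq : 1 < q) : ℕ := (exists_r q hq).choose

lemma rr_spec (q : ℝ) (hq : 1 < q) : 6 ≤ q ^ (rr q hq) := (exists_r q hq).choose_spec

noncomputable def K4 (q : ℝ) (hq : 1 < q) : ℝ :=
  16 * KK q hq + 18 * (rr q hq) * (1 / 2 + K2 q hq) + 10 * (rr q hq) ^ 3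
    + 8 * (1 / 2 + K2 q hq) + 3

lemma K4_pos : 0 < K4 q hq := by
  unfold K4
  have := KK_pos q hq
  have := K2_pos hq
  positivity

include hq h hL

lemma m2' (N : ℕ) : ∫ x in a..(a + L), (F lam N x) ^ 2 ≤ (N * (1 / 2) + K2 q hq) * L := by
  have := m2 hq h one_pos hL a N
  rw [abs_le] at this
  have h2 := this.2
  rw [div_one] at h2
  linarith

/-- the cubic cross term -/
lemma cubic (N : ℕ) : ∫ x in a..(a + L), 4 * ((F lam N x) ^ 3 * Real.cos (lam N * x))
    ≤ (16 * KK q hq + 18 * (rr q hq) * (1 / 2 + K2 q hq) + 10 * (rr q hq) ^ 3) * L * (N + 1) := by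
  have hLp := L_pos hq h one_pos hL
  have hK := KK_pos q hq
  have hK2 := K2_pos hq
  set r := rr q hq with hr
  have hN0 : (0 : ℝ) ≤ N := Nat.cast_nonneg N
  have hr0 : (0 : ℝ) ≤ r := Nat.cast_nonneg r
  have hab : a ≤ a + L := by linarith
  have hFc := F_cont lam N
  by_cases hNr : N < r
  · -- trivial bound
    have h1 : ∀ x ∈ Set.Icc a (a + L), 4 * ((F lam N x) ^ 3 * Real.cos (lam N * x)) ≤ 4 * (r : ℝ) ^ 3 := by
      intro x _
      have h2 := F_abs_le lam N x
      have h3 : |F lam N x| ≤ r := h2.trans (by exact_mod_cast hNr.le)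
      have h4 := Real.abs_cos_le_one (lam N * x)
      have h5 : |(F lam N x) ^ 3 * Real.cos (lam N * x)| ≤ (r : ℝ) ^ 3 * 1 := by
        rw [abs_mul, abs_pow]
        exact mul_le_mul (pow_le_pow_left₀ (abs_nonneg _) h3 3) h4 (abs_nonneg _) (by positivity)
      have := le_abs_self ((F lam N x) ^ 3 * Real.cos (lam N * x))
      linarith
    have h2 := mono_int hab (by fun_prop) (by fun_prop) h1
    rw [intervalIntegral.integral_const, smul_eq_mul] at h2
    refine h2.trans ?_
    have h3 : (a + L - a) * (4 * (r : ℝ) ^ 3) = 4 * (r : ℝ) ^ 3 * L * 1 := by ring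
    rw [h3]
    apply mul_le_mul _ (by linarith) (by norm_num) (by positivity)
    apply mul_le_mul_of_nonneg_right _ hLp.le
    have : 0 ≤ 16 * KK q hq + 18 * (r : ℝ) * (1 / 2 + K2 q hq) + 6 * (r : ℝ) ^ 3 := by positivity
    linarith
  · push Not at hNr
    obtain ⟨M, rfl⟩ : ∃ M, N = M + r := ⟨N - r, by omega⟩
    have hPc := F_cont lam M
    have hp := h.pos' hq (M + r)
    have h1 : ∀ x ∈ Set.Icc a (a + L), 4 * ((F lam (M + r) x) ^ 3 * Real.cos (lam (M + r) * x))
        ≤ 4 * ((F lam M x) ^ 3 * Real.cos (lam (M + r) * x))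
          + (18 * r * (F lam M x) ^ 2 + 10 * (r : ℝ) ^ 3) := by
      intro x _
      set P := F lam M x
      set Fx := F lam (M + r) x
      set c := Real.cos (lam (M + r) * x)
      have hG : |Fx - P| ≤ r := F_diff_le lam M r x
      have hc : |c| ≤ 1 := Real.abs_cos_le_one _
      have h2 : |(Fx ^ 3 - P ^ 3) * c| ≤ r * (3 * P ^ 2 + 3 / 2 * (P ^ 2 + r ^ 2) + r ^ 2) := by
        have e : Fx ^ 3 - P ^ 3 = (Fx - P) * (3 * P ^ 2 + 3 * P * (Fx - P) + (Fx - P) ^ 2) := by ring
        rw [e, abs_mul, abs_mul]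
        have h3 : |3 * P ^ 2 + 3 * P * (Fx - P) + (Fx - P) ^ 2| ≤ 3 * P ^ 2 + 3 / 2 * (P ^ 2 + r ^ 2) + r ^ 2 := by
          have hG2 : (Fx - P) ^ 2 ≤ (r : ℝ) ^ 2 := by
            rw [← sq_abs (Fx - P)]; exact pow_le_pow_left₀ (abs_nonneg _) hG 2
          rw [abs_le]
          constructor <;> nlinarith [sq_nonneg (P + (Fx - P)), sq_nonneg (P - (Fx - P)), sq_nonneg P, sq_nonneg (Fx - P)]
        calc |Fx - P| * |3 * P ^ 2 + 3 * P * (Fx - P) + (Fx - P) ^ 2| * |c|
            ≤ (r * (3 * P ^ 2 + 3 / 2 * (P ^ 2 + r ^ 2) + r ^ 2)) * 1 := by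
              apply mul_le_mul _ hc (abs_nonneg _) (by positivity)
              exact mul_le_mul hG h3 (abs_nonneg _) hr0
          _ = _ := mul_one _
      have h4 := le_abs_self ((Fx ^ 3 - P ^ 3) * c)
      nlinarith [h2, h4]
    have h2 := mono_int hab (by fun_prop) (by fun_prop) h1
    refine h2.trans ?_
    rw [intervalIntegral.integral_add (Continuous.intervalIntegrable (by fun_prop) _ _)
        (Continuous.intervalIntegrable (by fun_prop) _ _),
        intervalIntegral.integral_add (Continuous.intervalIntegrable (by fun_prop) _ _)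
        (Continuous.intervalIntegrable (by fun_prop) _ _),
        intervalIntegral.integral_const_mul, intervalIntegral.integral_const_mul,
        intervalIntegral.integral_const, smul_eq_mul]
    have h3 := cube_orth a (a + L) lam M (lam (M + r)) hp (by
      intro j hj
      rw [abs_of_pos (h.pos' hq j), le_div_iff₀ (by norm_num)]
      have h4 := h.pow_le hq M r
      have h5 := h.mono hq j M hj.le
      have h6 := rr_spec q hq
      have h7 := h.pos' hq M
      calc lam j * 6 ≤ lam M * 6 := by linarith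
        _ ≤ lam M * q ^ r := mul_le_mul_of_nonneg_left h6 h7.le
        _ ≤ lam (M + r) := by linarith)
    have h3' := (le_abs_self _).trans h3
    have h4 := m2' hq h hL a M
    have h5 := h.inv_le hq one_pos hL (M + r)
    rw [div_one] at h5
    have h6 : (M : ℝ) ^ 3 * (4 / lam (M + r)) ≤ 4 * KK q hq * L := by
      have h7 := KK_term q hq (M + r)
      have hq0 : 0 < q := by linarith
      have hM : (M : ℝ) ^ 3 ≤ (((M + r : ℕ) : ℝ) + 1) ^ 3 := by
        apply pow_le_pow_left₀ (Nat.cast_nonneg M)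
        push_cast; linarith
      calc (M : ℝ) ^ 3 * (4 / lam (M + r)) = 4 * ((M : ℝ) ^ 3 * (1 / lam (M + r))) := by ring
        _ ≤ 4 * ((((M + r : ℕ) : ℝ) + 1) ^ 3 * (L * (1 / q) ^ (M + r))) := by
            apply mul_le_mul_of_nonneg_left _ (by norm_num)
            exact mul_le_mul hM h5 (by positivity) (by positivity)
        _ = 4 * L * ((((M + r : ℕ) : ℝ) + 1) ^ 3 * (1 / q) ^ (M + r)) := by ring
        _ ≤ 4 * L * KK q hq := mul_le_mul_of_nonneg_left h7 (by positivity)
        _ = _ := by ring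
    have hM0 : (0 : ℝ) ≤ M := Nat.cast_nonneg M
    have h8 : 18 * (r : ℝ) * ∫ x in a..(a + L), (F lam M x) ^ 2
        ≤ 18 * r * (1 / 2 + K2 q hq) * L * ((M + r : ℕ) + 1) := by
      have h9 : ∫ x in a..(a + L), (F lam M x) ^ 2 ≤ (1 / 2 + K2 q hq) * L * ((M + r : ℕ) + 1) := by
        refine h4.trans ?_
        push_cast
        have : 0 ≤ K2 q hq * L := by positivity
        nlinarith [mul_nonneg this hM0, mul_nonneg this hr0, mul_nonneg hLp.le hr0]
      calc 18 * (r : ℝ) * ∫ x in a..(a + L), (F lam M x) ^ 2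
          ≤ 18 * (r : ℝ) * ((1 / 2 + K2 q hq) * L * ((M + r : ℕ) + 1)) :=
            mul_le_mul_of_nonneg_left h9 (by positivity)
        _ = _ := by ring
    have h10 : (a + L - a) * (10 * (r : ℝ) ^ 3) ≤ 10 * (r : ℝ) ^ 3 * L * ((M + r : ℕ) + 1) := by
      have : (1 : ℝ) ≤ ((M + r : ℕ) : ℝ) + 1 := by push_cast; linarith
      calc (a + L - a) * (10 * (r : ℝ) ^ 3) = 10 * (r : ℝ) ^ 3 * L * 1 := by ring
        _ ≤ _ := mul_le_mul_of_nonneg_left this (by positivity)
    have h11 : 16 * KK q hq * L ≤ 16 * KK q hq * L * ((M + r : ℕ) + 1) := by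
      have : (1 : ℝ) ≤ ((M + r : ℕ) : ℝ) + 1 := by push_cast; linarith
      exact le_mul_of_one_le_right (by positivity) this
    calc 4 * (∫ x in a..(a + L), (F lam M x) ^ 3 * Real.cos (lam (M + r) * x))
          + (18 * (r : ℝ) * (∫ x in a..(a + L), (F lam M x) ^ 2) + (a + L - a) * (10 * (r : ℝ) ^ 3))
        ≤ 16 * KK q hq * L * ((M + r : ℕ) + 1) + (18 * r * (1 / 2 + K2 q hq) * L * ((M + r : ℕ) + 1)
          + 10 * (r : ℝ) ^ 3 * L * ((M + r : ℕ) + 1)) := by linarith
      _ = _ := by ring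

lemma m4 (N : ℕ) : ∫ x in a..(a + L), (F lam N x) ^ 4 ≤ K4 q hq * L * (N : ℝ) ^ 2 := by
  have hLp := L_pos hq h one_pos hL
  have hK4 := K4_pos hq
  have hab : a ≤ a + L := by linarith
  induction N with
  | zero => simp [F_zero]
  | succ N ih =>
    have hFc := F_cont lam N
    have hN0 : (0 : ℝ) ≤ N := Nat.cast_nonneg N
    have hK2 := K2_pos hq
    have h1 : ∀ x ∈ Set.Icc a (a + L), (F lam (N + 1) x) ^ 4 ≤ (F lam N x) ^ 4
        + (4 * ((F lam N x) ^ 3 * Real.cos (lam N * x)) + (8 * (F lam N x) ^ 2 + 3)) := by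
      intro x _
      rw [F_succ]
      set P := F lam N x
      set c := Real.cos (lam N * x)
      have hc := abs_le.mp (Real.abs_cos_le_one (lam N * x))
      have hc1 : -1 ≤ c := hc.1
      have hc2 : c ≤ 1 := hc.2
      have hcc : c ^ 2 ≤ 1 := by nlinarith
      have e : (P + c) ^ 4 = P ^ 4 + 4 * (P ^ 3 * c) + 6 * (P ^ 2 * c ^ 2) + 4 * (P * c * c ^ 2) + c ^ 2 * c ^ 2 := by
        ring
      have h2 : P ^ 2 * c ^ 2 ≤ P ^ 2 := by nlinarith [sq_nonneg P]
      have h3 : 2 * (P * c) ≤ P ^ 2 + 1 := by nlinarith [sq_nonneg (P - c)]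
      have h3' : -(P ^ 2 + 1) ≤ 2 * (P * c) := by nlinarith [sq_nonneg (P + c)]
      have h4 : 4 * (P * c * c ^ 2) ≤ 2 * P ^ 2 + 2 := by nlinarith [sq_nonneg c, sq_nonneg P]
      have h5 : c ^ 2 * c ^ 2 ≤ 1 := by nlinarith [sq_nonneg c]
      rw [e]; linarith
    have h2 := mono_int hab ((F_cont lam (N + 1)).pow 4) (by fun_prop) h1
    refine h2.trans ?_
    rw [intervalIntegral.integral_add (Continuous.intervalIntegrable (by fun_prop) _ _)
        (Continuous.intervalIntegrable (by fun_prop) _ _),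
        intervalIntegral.integral_add (Continuous.intervalIntegrable (by fun_prop) _ _)
        (Continuous.intervalIntegrable (by fun_prop) _ _),
        intervalIntegral.integral_add (Continuous.intervalIntegrable (by fun_prop) _ _)
        (Continuous.intervalIntegrable (by fun_prop) _ _),
        intervalIntegral.integral_const_mul 8,
        intervalIntegral.integral_const, smul_eq_mul]
    have h3 := cubic hq h hL a N
    have h4 := m2' hq h hL a N
    have h5 : 8 * ((N * (1 / 2) + K2 q hq) * L) ≤ 8 * (1 / 2 + K2 q hq) * L * (N + 1) := by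
      have : 0 ≤ K2 q hq * L := by positivity
      nlinarith [mul_nonneg this hN0, mul_nonneg hLp.le hN0]
    have h6 : (a + L - a) * 3 ≤ 3 * L * (N + 1) := by nlinarith [mul_nonneg hLp.le hN0]
    have h7 : (∫ x in a..(a + L), 4 * ((F lam N x) ^ 3 * Real.cos (lam N * x)))
        + (8 * (∫ x in a..(a + L), (F lam N x) ^ 2) + (a + L - a) * 3) ≤ K4 q hq * L * (N + 1) := by
      calc _ ≤ (16 * KK q hq + 18 * (rr q hq) * (1 / 2 + K2 q hq) + 10 * (rr q hq) ^ 3) * L * (N + 1)
            + (8 * (1 / 2 + K2 q hq) * L * (N + 1) + 3 * L * (N + 1)) := by linarith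
        _ = K4 q hq * L * (N + 1) := by unfold K4; ring
    have h8 : 0 ≤ K4 q hq * L * N := by positivity
    push_cast
    nlinarith [h7, ih, h8]

end Four

/-- lower bound of the first absolute moment -/
lemma m5 (q : ℝ) (hq : 1 < q) : ∃ c : ℝ, 0 < c ∧ ∃ N₀ : ℕ, ∀ lam : ℕ → ℝ, Lac q lam →
    ∀ L a : ℝ, 1 ≤ lam 0 * L → ∀ N : ℕ, N₀ ≤ N →
      c * Real.sqrt N * L ≤ ∫ x in a..(a + L), |F lam N x| := by
  set A := K4 q hq with hA
  have hAp : 0 < A := K4_pos hq
  have hK2 := K2_pos hq
  obtain ⟨N₀, hN₀⟩ := exists_nat_ge (8 * K2 q hq + 1)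
  refine ⟨1 / (16 * Real.sqrt A), by positivity, N₀, ?_⟩
  intro lam h L a hL N hN
  have hLp := L_pos hq h one_pos hL
  have hab : a ≤ a + L := by linarith
  have hN8 : 8 * K2 q hq + 1 ≤ N := hN₀.trans (by exact_mod_cast hN)
  have hNp : (0 : ℝ) < N := by linarith
  set s := 2 * Real.sqrt (A * N) with hs
  have hsp : 0 < s := by positivity
  have hs2 : s ^ 2 = 4 * (A * N) := by
    rw [hs, mul_pow, Real.sq_sqrt (by positivity)]; norm_num
  have hFc := F_cont lam N
  have h1 : ∀ x ∈ Set.Icc a (a + L), (F lam N x) ^ 2 - (1 / s ^ 2) * (F lam N x) ^ 4 ≤ s * |F lam N x| := by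
    intro x _
    set t := |F lam N x| with ht
    have ht0 : 0 ≤ t := abs_nonneg _
    have e2 : (F lam N x) ^ 2 = t ^ 2 := (sq_abs _).symm
    have e4 : (F lam N x) ^ 4 = t ^ 4 := by
      rw [show (4 : ℕ) = 2 * 2 by norm_num, pow_mul, pow_mul, e2]
    rw [e2, e4]
    rcases le_total t s with hts | hts
    · have : t ^ 2 ≤ s * t := by nlinarith
      have : 0 ≤ (1 / s ^ 2) * t ^ 4 := by positivity
      linarith
    · have h3 : s ^ 2 ≤ t ^ 2 := pow_le_pow_left₀ hsp.le hts 2
      have h4 : t ^ 2 ≤ (1 / s ^ 2) * t ^ 4 := by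
        rw [one_div, inv_mul_eq_div, le_div_iff₀ (by positivity)]
        nlinarith [sq_nonneg t]
      have : 0 ≤ s * t := by positivity
      linarith
  have h2 := mono_int hab (by fun_prop) (by fun_prop) h1
  rw [intervalIntegral.integral_sub (Continuous.intervalIntegrable (by fun_prop) _ _)
        (Continuous.intervalIntegrable (by fun_prop) _ _),
      intervalIntegral.integral_const_mul, intervalIntegral.integral_const_mul] at h2
  have h3 := m2 hq h one_pos hL a N
  rw [div_one, abs_le] at h3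
  have h4 := m4 hq h hL a N
  have h5 : (1 / s ^ 2) * (∫ x in a..(a + L), (F lam N x) ^ 4) ≤ N * L / 4 := by
    calc (1 / s ^ 2) * (∫ x in a..(a + L), (F lam N x) ^ 4)
        ≤ (1 / s ^ 2) * (A * L * (N : ℝ) ^ 2) := mul_le_mul_of_nonneg_left h4 (by positivity)
      _ = N * L / 4 := by rw [hs2]; field_simp
  have h6 : N / 8 * L ≤ s * ∫ x in a..(a + L), |F lam N x| := by
    have : K2 q hq * L ≤ N / 8 * L := mul_le_mul_of_nonneg_right (by linarith) hLp.le
    linarith [h3.1]
  have h7 : 1 / (16 * Real.sqrt A) * Real.sqrt N * L = (N / 8 * L) / s := by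
    rw [hs, Real.sqrt_mul hAp.le]
    have hsN : Real.sqrt N * Real.sqrt N = N := Real.mul_self_sqrt hNp.le
    have : 0 < Real.sqrt N := Real.sqrt_pos.mpr hNp
    have : 0 < Real.sqrt A := Real.sqrt_pos.mpr hAp
    rw [eq_div_iff (by positivity)]
    field_simp
    nlinarith [hsN]
  rw [h7, div_le_iff₀ hsp]
  linarith

/-- arbitrarily large oscillation on every interval of length at least `1 / lam 0` -/
lemma osc (q : ℝ) (hq : 1 < q) (R : ℝ) (hR : 0 ≤ R) : ∃ T : ℕ, 1 ≤ T ∧ ∀ lam : ℕ → ℝ, Lac q lam →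
    ∀ L a : ℝ, 1 ≤ lam 0 * L →
      (∃ x ∈ Set.Icc a (a + L), R ≤ F lam T x) ∧ (∃ x ∈ Set.Icc a (a + L), F lam T x ≤ -R) := by
  obtain ⟨c, hc, N₀, hN₀⟩ := m5 q hq
  have hK := KK_pos q hq
  obtain ⟨T, hT⟩ := exists_nat_gt (max ((N₀ : ℝ)) (((2 * R + 2 * KK q hq) / c) ^ 2))
  have hT1 : N₀ ≤ T := by
    have := (le_max_left _ _).trans hT.le
    exact_mod_cast this
  have hT2 : ((2 * R + 2 * KK q hq) / c) ^ 2 < T := (le_max_right _ _).trans_lt hT
  have hT3 : 2 * R + 2 * KK q hq < c * Real.sqrt T := by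
    have : (2 * R + 2 * KK q hq) / c < Real.sqrt T := Real.lt_sqrt_of_sq_lt hT2
    rw [div_lt_iff₀ hc] at this
    linarith
  have hT0 : 1 ≤ T := by
    have : (0 : ℝ) < T := lt_of_le_of_lt (sq_nonneg _) hT2
    exact_mod_cast this
  refine ⟨T, hT0, fun lam h L a hL => ?_⟩
  have hLp := L_pos hq h one_pos hL
  have hab : a ≤ a + L := by linarith
  have hFc := F_cont lam T
  have h5 := hN₀ lam h L a hL T hT1
  have h1 := m1 hq h one_pos hL a T
  rw [div_one, abs_le] at h1
  have h6 : (2 * R + 2 * KK q hq) * L < c * Real.sqrt T * L := mul_lt_mul_of_pos_right hT3 hLp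
  constructor
  · by_contra hcon
    push Not at hcon
    have h2 : ∀ x ∈ Set.Icc a (a + L), |F lam T x| ≤ 2 * R - F lam T x := by
      intro x hx
      have := hcon x hx
      rw [abs_le]; constructor <;> linarith
    have h3 := mono_int hab (by fun_prop) (by fun_prop) h2
    rw [intervalIntegral.integral_sub (Continuous.intervalIntegrable (by fun_prop) _ _)
        (Continuous.intervalIntegrable (by fun_prop) _ _),
      intervalIntegral.integral_const, smul_eq_mul] at h3
    nlinarith [h1.1, h3, h5, h6]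
  · by_contra hcon
    push Not at hcon
    have h2 : ∀ x ∈ Set.Icc a (a + L), |F lam T x| ≤ 2 * R + F lam T x := by
      intro x hx
      have := hcon x hx
      rw [abs_le]; constructor <;> linarith
    have h3 := mono_int hab (by fun_prop) (by fun_prop) h2
    rw [intervalIntegral.integral_add (Continuous.intervalIntegrable (by fun_prop) _ _)
        (Continuous.intervalIntegrable (by fun_prop) _ _),
      intervalIntegral.integral_const, smul_eq_mul] at h3
    nlinarith [h1.2, h3, h5, h6]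

/-- uniform small oscillation for short sums on long intervals -/
lemma osc1 (q : ℝ) (hq : 1 < q) (T : ℕ) (hT : 1 ≤ T) : ∃ C c : ℝ, 1 ≤ C ∧ 0 < c ∧ c ≤ 1 ∧
    ∀ lam : ℕ → ℝ, Lac q lam → ∀ L a : ℝ, C ≤ lam 0 * L → ∀ s : ℕ, 1 ≤ s → s ≤ T →
      (∃ x ∈ Set.Icc a (a + L), c ≤ F lam s x) ∧ (∃ x ∈ Set.Icc a (a + L), F lam s x ≤ -c) := by
  have hK := KK_pos q hq
  have hK2 := K2_pos hq
  have hTr : (1 : ℝ) ≤ T := by exact_mod_cast hT
  set C := 1 + 8 * K2 q hq + 16 * T * KK q hq with hC
  set c := 1 / (16 * (T : ℝ)) with hc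
  have hCp : 0 < C := by positivity
  have hcp : 0 < c := by positivity
  refine ⟨C, c, ?_, hcp, ?_, ?_⟩
  · have : 0 ≤ 8 * K2 q hq + 16 * T * KK q hq := by positivity
    linarith
  · rw [hc, div_le_one (by positivity)]; linarith
  intro lam h L a hL s hs1 hsT
  have hLp := L_pos hq h hCp hL
  have hab : a ≤ a + L := by linarith
  have hFc := F_cont lam s
  have h1 := m1 hq h hCp hL a s
  have h2 := m2 hq h hCp hL a s
  rw [abs_le] at h1 h2
  have hs1' : (1 : ℝ) ≤ s := by exact_mod_cast hs1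
  have hsT' : (s : ℝ) ≤ T := by exact_mod_cast hsT
  have b1 : K2 q hq * (L / C) ≤ L / 8 := by
    rw [mul_div_assoc', div_le_div_iff₀ hCp (by norm_num)]
    have : 8 * K2 q hq ≤ C := by
      have : 0 ≤ 16 * T * KK q hq := by positivity
      linarith
    nlinarith
  have b2 : (T : ℝ) * (2 * KK q hq * (L / C)) ≤ L / 8 := by
    have e : (T : ℝ) * (2 * KK q hq * (L / C)) = (2 * T * KK q hq * L) / C := by ring
    rw [e, div_le_div_iff₀ hCp (by norm_num)]
    have : 16 * T * KK q hq ≤ C := by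
      have : 0 ≤ 8 * K2 q hq := by positivity
      linarith
    nlinarith
  have b3 : (T : ℝ) * (2 * c * L) = L / 8 := by
    rw [hc]; field_simp; ring
  have b4 : L / 2 ≤ s * (L / 2) := by nlinarith
  constructor
  · by_contra hcon
    push Not at hcon
    have h3 : ∀ x ∈ Set.Icc a (a + L), (F lam s x) ^ 2 ≤ T * (2 * c - F lam s x) := by
      intro x hx
      have h4 := hcon x hx
      have h5 := F_abs_le lam s x
      have h6 : |F lam s x| ≤ 2 * c - F lam s x := by
        rw [abs_le]; constructor <;> linarith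
      rw [← sq_abs, sq]
      exact mul_le_mul (h5.trans hsT') h6 (abs_nonneg _) (by positivity)
    have h4 := mono_int hab (by fun_prop) (by fun_prop) h3
    rw [intervalIntegral.integral_const_mul, intervalIntegral.integral_sub
        (Continuous.intervalIntegrable (by fun_prop) _ _)
        (Continuous.intervalIntegrable (by fun_prop) _ _),
      intervalIntegral.integral_const, smul_eq_mul] at h4
    have h5 : (T : ℝ) * ((a + L - a) * (2 * c) - ∫ x in a..(a + L), F lam s x)
        ≤ T * (2 * c * L) + T * (2 * KK q hq * (L / C)) := by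
      rw [← mul_add]
      apply mul_le_mul_of_nonneg_left _ (by positivity)
      linarith [h1.1]
    linarith [h2.1]
  · by_contra hcon
    push Not at hcon
    have h3 : ∀ x ∈ Set.Icc a (a + L), (F lam s x) ^ 2 ≤ T * (2 * c + F lam s x) := by
      intro x hx
      have h4 := hcon x hx
      have h5 := F_abs_le lam s x
      have h6 : |F lam s x| ≤ 2 * c + F lam s x := by
        rw [abs_le]; constructor <;> linarith
      rw [← sq_abs, sq]
      exact mul_le_mul (h5.trans hsT') h6 (abs_nonneg _) (by positivity)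
    have h4 := mono_int hab (by fun_prop) (by fun_prop) h3
    rw [intervalIntegral.integral_const_mul, intervalIntegral.integral_add
        (Continuous.intervalIntegrable (by fun_prop) _ _)
        (Continuous.intervalIntegrable (by fun_prop) _ _),
      intervalIntegral.integral_const, smul_eq_mul] at h4
    have h5 : (T : ℝ) * ((a + L - a) * (2 * c) + ∫ x in a..(a + L), F lam s x)
        ≤ T * (2 * c * L) + T * (2 * KK q hq * (L / C)) := by
      rw [← mul_add]
      apply mul_le_mul_of_nonneg_left _ (by positivity)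
      linarith [h1.2]
    linarith [h2.1]

end Pool.Agent.V11203.LD
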