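import Pool.Agent.V11203.LD.Osc

/-!
The stopping-time part: near a point where a partial sum is close to a level, a fixed proportion of
points have a later partial sum arbitrarily close to that level.
-/

open MeasureTheory Finset Filter Topology

namespace Pool.Agent.V11203.LD

/-- partial sums -/
noncomputable def S (n : ℕ → ℕ) (m : ℕ) (x : ℝ) : ℝ := ∑ k ∈ range m, Real.cos ((n k : ℝ) * x)

/-- points where some partial sum of index at least `m` is `δ`-close to `ξ` -/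
def H (n : ℕ → ℕ) (ξ δ : ℝ) (m : ℕ) : Set ℝ := {x | ∃ m', m ≤ m' ∧ |S n m' x - ξ| < δ}

def tail (n : ℕ → ℕ) (k : ℕ) : ℕ → ℝ := fun j => (n (k + 1 + j) : ℝ)

lemma S_cont (n : ℕ → ℕ) (m : ℕ) : Continuous (S n m) := by unfold S; fun_prop

lemma S_succ (n : ℕ → ℕ) (m : ℕ) (x : ℝ) :
    S n (m + 1) x = S n m x + Real.cos ((n m : ℝ) * x) := by
  simp [S, Finset.sum_range_succ]

lemma S_step (n : ℕ → ℕ) (m : ℕ) (x : ℝ) : |S n (m + 1) x - S n m x| ≤ 1 := by
  rw [S_succ, add_sub_cancel_left]; exact Real.abs_cos_le_one _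

lemma S_steps (n : ℕ → ℕ) (m t : ℕ) (x : ℝ) : |S n (m + t) x - S n m x| ≤ t := by
  induction t with
  | zero => simp
  | succ t ih =>
    rw [← add_assoc]
    have h := S_step n (m + t) x
    push_cast
    calc |S n (m + t + 1) x - S n m x|
        = |(S n (m + t + 1) x - S n (m + t) x) + (S n (m + t) x - S n m x)| := by congr 1; ring
      _ ≤ _ := abs_add_le _ _
      _ ≤ t + 1 := by linarith

lemma S_abs (n : ℕ → ℕ) (m : ℕ) (x : ℝ) : |S n m x| ≤ m := by
  have := S_steps n 0 m x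
  simpa [S] using this

lemma S_tail (n : ℕ → ℕ) (k T : ℕ) (x : ℝ) :
    S n (k + 1 + T) x = S n (k + 1) x + F (tail n k) T x := by
  simp only [S, F, tail]
  rw [Finset.sum_range_add]

lemma H_open (n : ℕ → ℕ) (ξ δ : ℝ) (m : ℕ) : IsOpen (H n ξ δ m) := by
  have : H n ξ δ m = ⋃ m' : ℕ, ⋃ _ : m ≤ m', {x | |S n m' x - ξ| < δ} := by
    ext x; simp [H]
  rw [this]
  refine isOpen_iUnion fun m' => isOpen_iUnion fun _ => ?_
  have := S_cont n m'
  exact isOpen_lt (by fun_prop) continuous_const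

lemma H_anti (n : ℕ → ℕ) (ξ δ : ℝ) {m m' : ℕ} (h : m ≤ m') : H n ξ δ m' ⊆ H n ξ δ m := by
  rintro x ⟨j, hj, hx⟩
  exact ⟨j, h.trans hj, hx⟩

section Proc

variable {n : ℕ → ℕ} {q : ℝ} (hq : 1 < q) (hpos : ∀ k, 0 < n k)
  (hr : ∀ k, q * (n k : ℝ) ≤ (n (k + 1) : ℝ))

include hpos hr in
lemma tail_lac (k : ℕ) : Lac q (tail n k) := by
  constructor
  · simp only [tail]; exact_mod_cast hpos _
  · intro j
    simp only [tail]
    have := hr (k + 1 + j)
    simpa [add_assoc] using this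

include hq hr in
lemma n_le_succ (k : ℕ) : (n k : ℝ) ≤ n (k + 1) := by
  have h1 := hr k
  have h0 : (0 : ℝ) ≤ n k := Nat.cast_nonneg _
  nlinarith

include hq hr in
lemma n_mono {i j : ℕ} (hij : i ≤ j) : (n i : ℝ) ≤ n j := by
  induction j, hij using Nat.le_induction with
  | base => exact le_rfl
  | succ j _ ih => exact ih.trans (n_le_succ hq hr j)

/-- the Lipschitz constant factor -/
noncomputable def kap (q : ℝ) : ℝ := q / (q - 1)

include hq in
lemma kap_gt : 1 < kap q := by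
  unfold kap
  rw [one_lt_div (by linarith)]; linarith

include hq hr in
lemma sum_n (k : ℕ) : ∑ j ∈ range (k + 1), (n j : ℝ) ≤ kap q * n k := by
  have hk := kap_gt hq
  induction k with
  | zero =>
    simp only [zero_add, Finset.sum_range_one]
    have h0 : (0 : ℝ) ≤ n 0 := Nat.cast_nonneg _
    nlinarith
  | succ k ih =>
    rw [Finset.sum_range_succ]
    have h1 := hr k
    have hq1 : 0 < q - 1 := by linarith
    have h2 : kap q * n k ≤ (kap q / q) * n (k + 1) := by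
      have : kap q * n k = (kap q / q) * (q * n k) := by field_simp
      rw [this]
      exact mul_le_mul_of_nonneg_left h1 (by positivity)
    have h3 : kap q / q + 1 = kap q := by
      unfold kap; field_simp; ring
    calc _ ≤ (kap q / q) * n (k + 1) + n (k + 1) := by linarith
      _ = (kap q / q + 1) * n (k + 1) := by ring
      _ = _ := by rw [h3]

include hq hr in
lemma S_lip (k : ℕ) (x y : ℝ) : |S n (k + 1) x - S n (k + 1) y| ≤ kap q * n k * |x - y| := by
  have h1 : S n (k + 1) x - S n (k + 1) y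
      = ∑ j ∈ range (k + 1), (Real.cos ((n j : ℝ) * x) - Real.cos ((n j : ℝ) * y)) := by
    simp [S, Finset.sum_sub_distrib]
  rw [h1]
  calc |∑ j ∈ range (k + 1), (Real.cos ((n j : ℝ) * x) - Real.cos ((n j : ℝ) * y))|
      ≤ ∑ j ∈ range (k + 1), |Real.cos ((n j : ℝ) * x) - Real.cos ((n j : ℝ) * y)| :=
        Finset.abs_sum_le_sum_abs _ _
    _ ≤ ∑ j ∈ range (k + 1), (n j : ℝ) * |x - y| := by
        apply Finset.sum_le_sum
        intro j _
        have hc : |Real.cos ((n j : ℝ) * x) - Real.cos ((n j : ℝ) * y)|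
            ≤ |(n j : ℝ) * x - (n j : ℝ) * y| := by
          rw [Real.cos_sub_cos]
          have h1 : |Real.sin (((n j : ℝ) * x + (n j : ℝ) * y) / 2)| ≤ 1 := Real.abs_sin_le_one _
          have h2 : |Real.sin (((n j : ℝ) * x - (n j : ℝ) * y) / 2)|
              ≤ |((n j : ℝ) * x - (n j : ℝ) * y) / 2| := Real.abs_sin_le_abs
          rw [abs_mul, abs_mul]
          have h3 : |((n j : ℝ) * x - (n j : ℝ) * y) / 2| = |(n j : ℝ) * x - (n j : ℝ) * y| / 2 := by
            rw [abs_div]; norm_num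
          rw [h3] at h2
          have h4 : |(-2 : ℝ)| = 2 := by norm_num
          rw [h4]
          calc _ ≤ 2 * 1 * (|(n j : ℝ) * x - (n j : ℝ) * y| / 2) := by
                apply mul_le_mul _ h2 (abs_nonneg _) (by norm_num)
                linarith
            _ = _ := by ring
        refine hc.trans (le_of_eq ?_)
        rw [← mul_sub, abs_mul, abs_of_nonneg (Nat.cast_nonneg _)]
    _ = (∑ j ∈ range (k + 1), (n j : ℝ)) * |x - y| := by rw [Finset.sum_mul]
    _ ≤ kap q * n k * |x - y| := mul_le_mul_of_nonneg_right (sum_n hq hr k) (abs_nonneg _)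

/-- a zero produces a whole interval of hits -/
lemma hit_near (hq : 1 < q) (hpos : ∀ k, 0 < n k) (hr : ∀ k, q * (n k : ℝ) ≤ (n (k + 1) : ℝ))
    {ξ δ ρ : ℝ} (hρ : 0 < ρ) (hρδ : kap q * ρ ≤ δ) (k : ℕ) (z : ℝ)
    (hz : S n (k + 1) z = ξ) : Set.Ico z (z + ρ / n k) ⊆ H n ξ δ (k + 1) := by
  intro x hx
  refine ⟨k + 1, le_rfl, ?_⟩
  have hn : (0 : ℝ) < n k := by exact_mod_cast hpos k
  have h1 := S_lip hq hr k x z
  rw [hz] at h1
  have hx1 : |x - z| < ρ / n k := by
    rw [abs_lt]; constructor <;> [linarith [hx.1, div_pos hρ hn]; linarith [hx.2]]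
  have hk := kap_gt hq
  calc |S n (k + 1) x - ξ| ≤ kap q * n k * |x - z| := h1
    _ < kap q * n k * (ρ / n k) := mul_lt_mul_of_pos_left hx1 (by positivity)
    _ = kap q * ρ := by field_simp
    _ ≤ δ := hρδ

lemma vol_sub {A : Set ℝ} {z w y y' : ℝ} (h : Set.Ico z w ⊆ A) (h1 : y ≤ z) (h2 : w ≤ y') :
    ENNReal.ofReal (w - z) ≤ volume (A ∩ Set.Ico y y') := by
  rw [← Real.volume_Ico]
  exact measure_mono (fun x hx => ⟨h hx, ⟨h1.trans hx.1, hx.2.trans_le h2⟩⟩)

/-- summing over consecutive cells -/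
lemma cells {A : Set ℝ} (hA : MeasurableSet A) (x₀ ℓ : ℝ) (hℓ : 0 ≤ ℓ) (m : ENNReal) (N : ℕ)
    (h : ∀ i < N, m ≤ volume (A ∩ Set.Ico (x₀ + i * ℓ) (x₀ + i * ℓ + ℓ))) :
    N * m ≤ volume (A ∩ Set.Ico x₀ (x₀ + N * ℓ)) := by
  induction N with
  | zero => simp
  | succ N ih =>
    have h1 := ih (fun i hi => h i (by omega))
    have h2 := h N (by omega)
    have h3 : A ∩ Set.Ico x₀ (x₀ + ((N + 1 : ℕ) : ℝ) * ℓ)
        = (A ∩ Set.Ico x₀ (x₀ + N * ℓ)) ∪ (A ∩ Set.Ico (x₀ + N * ℓ) (x₀ + N * ℓ + ℓ)) := by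
      rw [← Set.inter_union_distrib_left, Set.Ico_union_Ico_eq_Ico]
      · congr 2; push_cast; ring
      · have : 0 ≤ (N : ℝ) * ℓ := by positivity
        linarith
      · linarith
    rw [h3, measure_union _ (hA.inter measurableSet_Ico)]
    · push_cast
      rw [add_mul, one_mul]
      exact add_le_add h1 h2
    · apply Set.disjoint_left.mpr
      rintro x ⟨_, hx1⟩ ⟨_, hx2⟩
      exact absurd hx1.2 (not_lt.mpr hx2.1)

/-- alternative at the end of a block -/
lemma step_alt {g Fx : ℝ → ℝ} {a b u V c : ℝ} (hg : Continuous g) (hc : 0 < c)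
    (hV : |u| ≤ V) (h1 : ∃ x ∈ Set.Icc a b, c ≤ Fx x) (h2 : ∃ x ∈ Set.Icc a b, Fx x ≤ -c)
    (hgF : ∀ x ∈ Set.Icc a b, |g x - (u + Fx x)| ≤ c / 2) :
    (∃ z ∈ Set.Icc a b, g z = 0) ∨ (∃ z ∈ Set.Icc a b, |g z| ≤ V - c / 2) := by
  obtain ⟨x1, hx1, hF1⟩ := h1
  obtain ⟨x2, hx2, hF2⟩ := h2
  have e1 := abs_le.mp (hgF x1 hx1)
  have e2 := abs_le.mp (hgF x2 hx2)
  have hu := abs_le.mp hV
  by_cases hz : (0 : ℝ) ∈ g '' Set.Icc a b
  · left
    obtain ⟨z, hz, hgz⟩ := hz
    exact ⟨z, hz, hgz⟩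
  right
  have hpre : IsPreconnected (Set.Icc a b) := isPreconnected_Icc
  have hiv1 := hpre.intermediate_value hx1 hx2 hg.continuousOn
  have hiv2 := hpre.intermediate_value hx2 hx1 hg.continuousOn
  rcases le_total 0 u with h0 | h0
  · refine ⟨x2, hx2, ?_⟩
    have g1 : 0 < g x1 := by linarith [e1.1]
    have g2 : 0 < g x2 := by
      by_contra hcon
      push Not at hcon
      exact hz (hiv2 ⟨hcon, g1.le⟩)
    rw [abs_of_pos g2]
    linarith [e2.2, hu.2]
  · refine ⟨x1, hx1, ?_⟩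
    have g2 : g x2 < 0 := by linarith [e2.2]
    have g1 : g x1 < 0 := by
      by_contra hcon
      push Not at hcon
      exact hz (hiv2 ⟨g2.le, hcon⟩)
    rw [abs_of_neg g1]
    linarith [e1.1, hu.1]

/-- exact hit when the oscillation dominates -/
lemma step_hit {g Fx : ℝ → ℝ} {a b V R : ℝ} (hg : Continuous g)
    (h1 : ∃ x ∈ Set.Icc a b, R ≤ Fx x) (h2 : ∃ x ∈ Set.Icc a b, Fx x ≤ -R) (hVR : V ≤ R)
    (hgF : ∀ x ∈ Set.Icc a b, |g x - Fx x| ≤ V) :
    ∃ z ∈ Set.Icc a b, g z = 0 := by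
  obtain ⟨x1, hx1, hF1⟩ := h1
  obtain ⟨x2, hx2, hF2⟩ := h2
  have e1 := abs_le.mp (hgF x1 hx1)
  have e2 := abs_le.mp (hgF x2 hx2)
  have hpre : IsPreconnected (Set.Icc a b) := isPreconnected_Icc
  have hiv := hpre.intermediate_value hx2 hx1 hg.continuousOn
  obtain ⟨z, hz, hgz⟩ := hiv (⟨by linarith [e2.2], by linarith [e1.1]⟩ : (0 : ℝ) ∈ Set.Icc (g x2) (g x1))
  exact ⟨z, hz, hgz⟩

/-- growth without large ratios -/
lemma growth {K : ℝ} (hK : 1 ≤ K) (k j : ℕ)
    (h : ∀ i < j, ¬ (K * (n (k + i) : ℝ) ≤ n (k + i + 1))) :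
    (n (k + j) : ℝ) ≤ K ^ j * n k := by
  induction j with
  | zero => simp
  | succ j ih =>
    have h1 := ih (fun i hi => h i (by omega))
    have h2 := h j (by omega)
    push Not at h2
    rw [← add_assoc]
    calc (n (k + j + 1) : ℝ) ≤ K * n (k + j) := h2.le
      _ ≤ K * (K ^ j * n k) := mul_le_mul_of_nonneg_left h1 (by linarith)
      _ = K ^ (j + 1) * n k := by ring

end Proc

end Pool.Agent.V11203.LD
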